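import Pool.Agent.R533.VC.NW

/-!
A Boolean matrix of small rank with few errors contains a large monochromatic rectangle
(Gavinsky and Lovett).
-/

set_option autoImplicit false

namespace Pool.Agent.R533.VC

open Finset Pool.Agent.H630R2.LR Module

theorem zero_rect {X Y : Type*} (G : X → Y → Bool) (A : Finset X) (B : Finset Y)
    (hB : B.Nonempty) (R : ℕ) (hR1 : 1 ≤ R) (hR : rk G A B ≤ R)
    (he : 4 * R * (∑ x ∈ A, (B.filter (fun y => G x y = true)).card) ≤ A.card * B.card) :
    ∃ A' ⊆ A, ∃ B' ⊆ B, (∀ x ∈ A', ∀ y ∈ B', G x y = false) ∧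
      A.card * B.card ≤ 4 * (A'.card * B'.card) := by
  classical
  let er : X → Finset Y := fun x => B.filter (fun y => G x y = true)
  let A1 := A.filter (fun x => 2 * R * (er x).card ≤ B.card)
  have hA1 : A1 ⊆ A := filter_subset _ _
  obtain ⟨T, hT, hs⟩ := exists_rows (comm (fun (x : A1) (y : B) => G x y))
  have hTR : T.card ≤ R := hT.trans ((rk_mono G hA1 subset_rfl).trans hR)
  let U : Finset Y := T.biUnion (fun x => er x.1)
  have hU : 2 * U.card ≤ B.card := by
    have h1 : R * (2 * U.card) ≤ R * B.card := by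
      calc R * (2 * U.card) ≤ R * (2 * ∑ x ∈ T, (er x.1).card) :=
            Nat.mul_le_mul_left _ (Nat.mul_le_mul_left _ card_biUnion_le)
        _ = ∑ x ∈ T, 2 * R * (er x.1).card := by
            rw [mul_sum, mul_sum]
            refine sum_congr rfl fun x _ => by ring
        _ ≤ ∑ _x ∈ T, B.card := sum_le_sum fun x _ => (mem_filter.mp x.2).2
        _ = T.card * B.card := by rw [sum_const, smul_eq_mul]
        _ ≤ R * B.card := Nat.mul_le_mul_right _ hTR
    exact Nat.le_of_mul_le_mul_left h1 hR1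
  have hA1c : A.card ≤ 2 * A1.card := by
    have h1 : (A \ A1).card * B.card ≤ 2 * R * ∑ x ∈ A, (er x).card := by
      calc (A \ A1).card * B.card = ∑ _x ∈ A \ A1, B.card := by rw [sum_const, smul_eq_mul]
        _ ≤ ∑ x ∈ A \ A1, 2 * R * (er x).card := by
            refine sum_le_sum fun x hx => ?_
            rw [mem_sdiff, mem_filter] at hx
            have : ¬ 2 * R * (er x).card ≤ B.card := fun h => hx.2 ⟨hx.1, h⟩
            omega
        _ ≤ ∑ x ∈ A, 2 * R * (er x).card :=
            sum_le_sum_of_subset sdiff_subset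
        _ = 2 * R * ∑ x ∈ A, (er x).card := by rw [mul_sum]
    have h2 : 2 * (A \ A1).card * B.card ≤ A.card * B.card := by
      calc 2 * (A \ A1).card * B.card = 2 * ((A \ A1).card * B.card) := by ring
        _ ≤ 2 * (2 * R * ∑ x ∈ A, (er x).card) := Nat.mul_le_mul_left _ h1
        _ = 4 * R * (∑ x ∈ A, (er x).card) := by ring
        _ ≤ _ := he
    have h3 : 2 * (A \ A1).card ≤ A.card := Nat.le_of_mul_le_mul_right h2 hB.card_pos
    have h4 : (A \ A1).card + A1.card = A.card := card_sdiff_add_card_eq_card hA1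
    omega
  refine ⟨A1, hA1, B \ U, sdiff_subset, fun x hx y hy => ?_, ?_⟩
  · rw [mem_sdiff] at hy
    have h1 := span_zero (comm (fun (x : A1) (y : B) => G x y)) T ⟨y, hy.1⟩ (fun a ha => ?_)
      _ (hs ⟨x, hx⟩)
    · have h2 : (if G x y then (1 : ℝ) else 0) = 0 := h1
      cases h3 : G x y with
      | false => rfl
      | true => simp [h3] at h2
    · show (if G a.1 y then (1 : ℝ) else 0) = 0
      have : G a.1 y = false := by
        cases h3 : G a.1 y with
        | false => rfl
        | true => exact absurd (mem_biUnion.mpr ⟨a, ha, mem_filter.mpr ⟨hy.1, h3⟩⟩) hy.2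
      simp [this]
  · have h5 : U ⊆ B := by
      intro y hy
      obtain ⟨x, _, hx⟩ := mem_biUnion.mp hy
      exact (mem_filter.mp hx).1
    have h6 : (B \ U).card + U.card = B.card := card_sdiff_add_card_eq_card h5
    have h7 : B.card ≤ 2 * (B \ U).card := by omega
    calc A.card * B.card ≤ (2 * A1.card) * (2 * (B \ U).card) := Nat.mul_le_mul hA1c h7
      _ = 4 * (A1.card * (B \ U).card) := by ring

theorem rank_add_le' {α β : Type*} [Fintype α] [Fintype β] (M N : Matrix α β ℝ) :
    (M + N).rank ≤ M.rank + N.rank := by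
  classical
  unfold Matrix.rank
  rw [Matrix.mulVecLin_add]
  refine (Submodule.finrank_mono (?_ : _ ≤ LinearMap.range M.mulVecLin ⊔
    LinearMap.range N.mulVecLin)).trans (Submodule.finrank_add_le_finrank_add_finrank _ _)
  rintro _ ⟨v, rfl⟩
  exact Submodule.add_mem_sup ⟨v, rfl⟩ ⟨v, rfl⟩

theorem rank_not {X Y : Type*} [Fintype X] [Fintype Y] (F : X → Y → Bool) :
    (comm (fun x y => !F x y)).rank ≤ (comm F).rank + 1 := by
  have h : comm (fun x y => !F x y) =
      Matrix.vecMulVec (fun _ => (1 : ℝ)) (fun _ => (1 : ℝ)) + (-1 : ℝ) • comm F := by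
    ext x y
    show (if (!F x y) = true then (1 : ℝ) else 0) = 1 * 1 + -1 * (if F x y then (1 : ℝ) else 0)
    cases F x y <;> simp
  rw [h]
  refine (rank_add_le' _ _).trans ?_
  have h1 : (Matrix.vecMulVec (fun _ : X => (1 : ℝ)) (fun _ : Y => (1 : ℝ))).rank ≤ 1 :=
    Matrix.rank_vecMulVec_le _ _
  have h2 : ((-1 : ℝ) • comm F).rank = (comm F).rank :=
    Matrix.rank_smul_of_mem_nonZeroDivisors _ (mem_nonZeroDivisors_of_ne_zero (by norm_num))
  omega

theorem few_errors {X Y : Type*} (F : X → Y → Bool) (A : Finset X) (B : Finset Y)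
    (hB : B.Nonempty) (v : Bool) (r : ℕ) (hr : rk F A B ≤ r)
    (he : 4 * (r + 1) * (∑ x ∈ A, (B.filter (fun y => F x y ≠ v)).card) ≤ A.card * B.card) :
    ∃ A' ⊆ A, ∃ B' ⊆ B, (∀ x ∈ A', ∀ y ∈ B', F x y = v) ∧
      A.card * B.card ≤ 4 * (A'.card * B'.card) := by
  cases v with
  | false =>
    refine zero_rect F A B hB (r + 1) (by omega) (by omega) ?_
    refine le_trans (le_of_eq ?_) he
    congr 1
    refine sum_congr rfl fun x _ => ?_
    congr 1
    ext y
    simp
  | true =>
    obtain ⟨A', hA', B', hB', h, hc⟩ := zero_rect (fun x y => !F x y) A B hB (r + 1) (by omega)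
      ((rank_not (fun (x : A) (y : B) => F x y)).trans (by
        have : (comm (fun (x : A) (y : B) => F x y)).rank ≤ r := hr
        omega)) (by
        refine le_trans (le_of_eq ?_) he
        congr 1
        refine sum_congr rfl fun x _ => ?_
        congr 1
        ext y
        simp)
    exact ⟨A', hA', B', hB', fun x hx y hy => by simpa using h x hx y hy, hc⟩

end Pool.Agent.R533.VC
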