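import Pool.Agent.R533.VC.Main

/-!
Protocols give colourings: the chromatic number of graphs of small VC dimension.
-/

set_option autoImplicit false

namespace Pool.Agent.R533.VC

open Finset Pool.Agent.H630R2.LR Module

section transcripts

variable {X Y : Type*} (owner : List Bool → Bool) (a : List Bool → X → Bool)
  (b : List Bool → Y → Bool)

/-- the transcript after `k` bits -/
def tr (x : X) (y : Y) (k : ℕ) : List Bool :=
  Nat.iterate (fun t : List Bool => t ++ [if owner t then a t x else b t y]) k []

theorem tr_succ (x : X) (y : Y) (k : ℕ) : tr owner a b x y (k + 1) =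
    tr owner a b x y k ++ [if owner (tr owner a b x y k) then a (tr owner a b x y k) x
      else b (tr owner a b x y k) y] := by
  unfold tr
  rw [Function.iterate_succ_apply']

theorem tr_length (x : X) (y : Y) (k : ℕ) : (tr owner a b x y k).length = k := by
  induction k with
  | zero => rfl
  | succ k ih => rw [tr_succ, List.length_append, ih]; rfl

theorem tr_take (x : X) (y : Y) (k m : ℕ) :
    (tr owner a b x y (k + m)).take k = tr owner a b x y k := by
  induction m with
  | zero => rw [Nat.add_zero]; exact List.take_of_length_le (tr_length owner a b x y k).le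
  | succ m ih =>
    rw [← Nat.add_assoc, tr_succ, List.take_append_of_le_length, ih]
    rw [tr_length]
    omega

/-- the rectangle property -/
theorem tr_rect (x x' : X) (y y' : Y) (c : ℕ)
    (h : tr owner a b x y c = tr owner a b x' y' c) :
    tr owner a b x y' c = tr owner a b x y c := by
  have hk : ∀ k ≤ c, tr owner a b x y k = tr owner a b x' y' k := by
    intro k hk
    obtain ⟨m, rfl⟩ := Nat.exists_eq_add_of_le hk
    rw [← tr_take owner a b x y k m, h, tr_take]
  have key : ∀ k ≤ c, tr owner a b x y' k = tr owner a b x y k := by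
    intro k
    induction k with
    | zero => intro _; rfl
    | succ k ih =>
      intro hkc
      have h1 := ih (by omega)
      have h2 := hk k (by omega)
      have h3 := hk (k + 1) hkc
      have e1 := tr_succ owner a b x y' k
      rw [h1] at e1
      by_cases ho : owner (tr owner a b x y k) = true
      · rw [e1, tr_succ owner a b x y k]
        simp only [ho, if_true]
      · rw [e1, h3, tr_succ owner a b x' y' k, ← h2]
        simp only [ho, Bool.false_eq_true, if_false]
  exact key c le_rfl

end transcripts

/-- A protocol for adjacency with `c` bits gives a proper colouring with `2 ^ c` colours. -/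
theorem colorable_of_proto {V : Type*} (G : SimpleGraph V) (F : V → V → Bool)
    (hF : ∀ u v, G.Adj u v ↔ F u v = true) {c : ℕ} (h : Proto F c) : G.Colorable (2 ^ c) := by
  obtain ⟨owner, a, b, out, hout⟩ := h
  have hcol : G.Coloring (List.Vector Bool c) := by
    refine SimpleGraph.Coloring.mk (fun v => ⟨tr owner a b v v c, tr_length owner a b v v c⟩) ?_
    intro u v huv heq
    have h1 : tr owner a b u u c = tr owner a b v v c := congrArg Subtype.val heq
    have h2 := tr_rect owner a b u v u v c h1
    have h3 := hout u v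
    have h4 := hout u u
    change out (tr owner a b u v c) = _ at h3
    change out (tr owner a b u u c) = _ at h4
    rw [h2, h4, (hF u v).mp huv] at h3
    exact G.loopless.irrefl u ((hF u u).mpr h3)
  have := hcol.colorable
  rw [card_vector, Fintype.card_bool] at this
  exact this

theorem graph_bound {V : Type*} [Fintype V] (G : SimpleGraph V) [DecidableRel G.Adj]
    (F : V → V → Bool) (hF : ∀ u v, G.Adj u v ↔ F u v = true) (d : ℕ) (hG : Growth F d)
    (hr : 1 < (G.adjMatrix ℝ).rank) :
    Real.log (G.chromaticNumber.toNat : ℝ) ≤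
      162 * ((d : ℝ) + 1) * (Real.log ((G.adjMatrix ℝ).rank : ℝ)) ^ 2 := by
  obtain ⟨c, hc, hle⟩ := proto_growth F d hG
  have hM : comm F = G.adjMatrix ℝ := by
    ext u v
    show (if F u v then (1 : ℝ) else 0) = if G.Adj u v then 1 else 0
    by_cases h : G.Adj u v
    · simp [h, (hF u v).mp h]
    · have : F u v = false := by
        rw [← Bool.not_eq_true]
        exact fun h' => h ((hF u v).mpr h')
      simp [h, this]
  rw [hM] at hle
  set r := (G.adjMatrix ℝ).rank with hrdef
  have hcol := colorable_of_proto G F hF hc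
  have h1 : G.chromaticNumber.toNat ≤ 2 ^ c := by
    have h2 : G.chromaticNumber ≤ ((2 ^ c : ℕ) : ℕ∞) := hcol.chromaticNumber_le
    exact (ENat.toNat_le_toNat h2 (ENat.natCast_ne_top (2 ^ c))).trans
      (ENat.toNat_natCast (2 ^ c)).le
  have hl2 : (0.6931471803 : ℝ) < Real.log 2 := Real.log_two_gt_d9
  have hl2' : (0 : ℝ) < Real.log 2 := by linarith
  have h2 : Real.log (G.chromaticNumber.toNat : ℝ) ≤ c * Real.log 2 := by
    by_cases h0 : G.chromaticNumber.toNat = 0
    · rw [h0]
      simp only [Nat.cast_zero, Real.log_zero]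
      positivity
    · rw [← Real.log_pow]
      apply Real.log_le_log
      · exact_mod_cast Nat.pos_of_ne_zero h0
      · exact_mod_cast h1
  have hr2 : (2 : ℝ) ≤ r := by exact_mod_cast hr
  have hlr : Real.log 2 ≤ Real.log (r : ℝ) := Real.log_le_log (by norm_num) hr2
  have h3 : Real.logb 2 (r : ℝ) + 1 ≤ 2 * Real.log (r : ℝ) / Real.log 2 := by
    rw [Real.logb, le_div_iff₀ hl2', add_mul, div_mul_cancel₀ _ hl2'.ne']
    linarith
  have h3' : 0 ≤ Real.logb 2 (r : ℝ) + 1 := by
    have := logb_nonneg r
    linarith
  have h4 : (Real.logb 2 (r : ℝ) + 1) ^ 2 ≤ (2 * Real.log (r : ℝ) / Real.log 2) ^ 2 :=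
    pow_le_pow_left₀ h3' h3 2
  have h5 : (c : ℝ) * Real.log 2 ≤ 28 * ((d : ℝ) + 1) *
      (2 * Real.log (r : ℝ) / Real.log 2) ^ 2 * Real.log 2 := by
    refine mul_le_mul_of_nonneg_right (hle.trans ?_) hl2'.le
    exact mul_le_mul_of_nonneg_left h4 (by positivity)
  refine h2.trans (h5.trans ?_)
  have h6 : 28 * ((d : ℝ) + 1) * (2 * Real.log (r : ℝ) / Real.log 2) ^ 2 * Real.log 2 =
      (112 / Real.log 2) * (((d : ℝ) + 1) * (Real.log (r : ℝ)) ^ 2) := by
    field_simp
    ring
  rw [h6]
  have h7 : 112 / Real.log 2 ≤ 162 := by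
    rw [div_le_iff₀ hl2']
    linarith
  have h8 : 0 ≤ ((d : ℝ) + 1) * (Real.log (r : ℝ)) ^ 2 := by positivity
  nlinarith

end Pool.Agent.R533.VC
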