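import Pool.Agent.R533.VC.Rand
import Pool.Agent.R533.VC.Graph

/-!
The bounds for randomized protocols with leaves of small VC dimension, the simple bound for
functions of small VC dimension, and the colourings.
-/

set_option autoImplicit false

namespace Pool.Agent.R533.VC

open Finset Pool.Agent.H630R2.LR Module

theorem Rich.mono {X Y : Type*} {F : X → Y → Bool} {q q' : ℕ} (h : Rich F q) (hq : q ≤ q') :
    Rich F q' := by
  intro A B hA hB
  obtain ⟨A', hA', B', hB', v, hv, hc⟩ := h A B hA hB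
  exact ⟨A', hA', B', hB', v, hv, hc.trans (Nat.mul_le_mul_right _ hq)⟩

theorem le_sq (L : ℝ) (hL : 1 ≤ L) : 1 ≤ L ^ 2 ∧ 1 ≤ L ^ 3 :=
  ⟨one_le_pow₀ hL, one_le_pow₀ hL⟩

theorem proto_rand {X Y Ω T : Type*} [Fintype X] [Fintype Y] [Fintype Ω] [Fintype T]
    (F : X → Y → Bool) (τ : Ω → X → Y → T) (h : Ω → T → X → Y → Bool)
    (hΩ : 0 < Fintype.card Ω)
    (hrect : ∀ ω x x' y y', τ ω x y = τ ω x' y' → τ ω x y' = τ ω x y) (c d : ℕ)
    (hT : Fintype.card T ≤ 2 ^ c) (hd : ∀ ω t, Growth (h ω t) d)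
    (herr : ∀ x y, 3 * (univ.filter (fun ω => h ω (τ ω x y) x y ≠ F x y)).card ≤
      Fintype.card Ω) :
    ∃ b, Proto F b ∧ (b : ℝ) ≤ 168 * ((c : ℝ) + 1) * (Real.logb 2 ((comm F).rank : ℝ) + 1) ^ 2 +
      5376 * d * (Real.logb 2 ((comm F).rank : ℝ) + 1) ^ 3 := by
  set r := (comm F).rank with hr
  set L := Real.logb 2 (r : ℝ) + 1 with hL
  have hL1 : 1 ≤ L := by
    have := logb_nonneg r
    linarith
  obtain ⟨hL2, hL3⟩ := le_sq L hL1
  by_cases hsmall : r + 1 ≤ 168 * (c + 1) + 5376 * d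
  · refine ⟨r + 1, proto_rank F, ?_⟩
    have h1 : ((r + 1 : ℕ) : ℝ) ≤ 168 * ((c : ℝ) + 1) + 5376 * d := by exact_mod_cast hsmall
    have h2 : 168 * ((c : ℝ) + 1) * 1 ≤ 168 * ((c : ℝ) + 1) * L ^ 2 :=
      mul_le_mul_of_nonneg_left hL2 (by positivity)
    have h3 : 5376 * (d : ℝ) * 1 ≤ 5376 * (d : ℝ) * L ^ 3 :=
      mul_le_mul_of_nonneg_left hL3 (by positivity)
    linarith
  · push Not at hsmall
    have hr1 : 1 ≤ r := by omega
    set u := Nat.clog 2 (r + 1) with hu
    have hru : r + 1 ≤ 2 ^ u := Nat.le_pow_clog (by norm_num) _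
    have hu1 : 1 ≤ u := Nat.clog_pos (by norm_num) (by omega)
    set k := 2 * (6 * (6 + u)) with hk
    have hk84 : k ≤ 84 * u := by omega
    have hdr : d ≤ 2 ^ u := by omega
    have hR := approx_rich F τ h hΩ hrect d hd herr u k (5 + u) (8 + 2 * u) hru hk (by
      rw [pow_add]
      exact Nat.mul_le_mul (by norm_num) hru) (by
      have h1 : u ≤ 2 ^ u := Nat.lt_two_pow_self.le
      calc 2 * (k * d) ≤ 2 * ((84 * u) * 2 ^ u) :=
            Nat.mul_le_mul_left _ (Nat.mul_le_mul hk84 hdr)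
        _ ≤ 2 * ((84 * 2 ^ u) * 2 ^ u) :=
            Nat.mul_le_mul_left _ (Nat.mul_le_mul_right _ (Nat.mul_le_mul_left _ h1))
        _ = 168 * 2 ^ (2 * u) := by rw [two_mul u, pow_add]; ring
        _ ≤ 2 ^ 8 * 2 ^ (2 * u) := Nat.mul_le_mul_right _ (by norm_num)
        _ = 2 ^ (8 + 2 * u) := by rw [pow_add])
    have hR' : Rich F (2 ^ (7 + c * k + 2 * (k * d) * (13 + 3 * u))) := by
      refine hR.mono ?_
      have e1 : 5 + u + (8 + 2 * u) = 13 + 3 * u := by ring
      rw [e1]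
      calc 32 * Fintype.card T ^ k * 2 ^ (2 * (k * d) * (13 + 3 * u) + 2)
          ≤ 32 * (2 ^ c) ^ k * 2 ^ (2 * (k * d) * (13 + 3 * u) + 2) :=
            Nat.mul_le_mul_right _ (Nat.mul_le_mul_left _ (Nat.pow_le_pow_left hT k))
        _ = 2 ^ (7 + c * k + 2 * (k * d) * (13 + 3 * u)) := by
            rw [← pow_mul, pow_add 2 _ 2, pow_add 2 (7 + c * k), pow_add 2 7]
            ring
    have hP := nw F _ (Nat.one_le_two_pow) hR' (8 + u + c * k + 2 * (k * d) * (13 + 3 * u)) (by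
      rw [← hr]
      set q := 2 ^ (7 + c * k + 2 * (k * d) * (13 + 3 * u)) with hq
      have h1 : 1 ≤ q := Nat.one_le_two_pow
      calc 2 * r * q + 2 ≤ 2 * r * q + 2 * q := by omega
        _ = 2 * (r + 1) * q := by ring
        _ ≤ 2 * 2 ^ u * q := Nat.mul_le_mul_right _ (Nat.mul_le_mul_left _ hru)
        _ = 2 ^ (8 + u + c * k + 2 * (k * d) * (13 + 3 * u)) := by
            rw [hq, ← pow_succ', ← pow_add]
            congr 1
            ring)
    refine ⟨_, hP, ?_⟩
    have hcl : Nat.clog 2 r ≤ u := Nat.clog_mono_right 2 (Nat.le_succ r)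
    have hul : (u : ℝ) ≤ L := by
      have h1 : u ≤ Nat.log 2 r + 1 :=
        Nat.clog_le_of_le_pow (Nat.lt_pow_succ_log_self (by norm_num) r)
      have h2 := log_le r
      have h3 : (u : ℝ) ≤ (Nat.log 2 r : ℝ) + 1 := by exact_mod_cast h1
      linarith
    have h4 : 2 * (8 + u + c * k + 2 * (k * d) * (13 + 3 * u)) * Nat.clog 2 r + 2 ≤
        168 * (c + 1) * u ^ 2 + 5376 * d * u ^ 3 := by
      have h5 : 8 + u + c * k + 2 * (k * d) * (13 + 3 * u) ≤
          9 * u + 84 * c * u + 2688 * d * u ^ 2 := by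
        have e1 : c * k ≤ 84 * c * u := by
          calc c * k ≤ c * (84 * u) := Nat.mul_le_mul_left _ hk84
            _ = 84 * c * u := by ring
        have e2 : 2 * (k * d) * (13 + 3 * u) ≤ 2688 * d * u ^ 2 := by
          calc 2 * (k * d) * (13 + 3 * u) ≤ 2 * ((84 * u) * d) * (16 * u) :=
                Nat.mul_le_mul (Nat.mul_le_mul_left _ (Nat.mul_le_mul_right _ hk84)) (by omega)
            _ = 2688 * d * u ^ 2 := by ring
        omega
      calc 2 * (8 + u + c * k + 2 * (k * d) * (13 + 3 * u)) * Nat.clog 2 r + 2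
          ≤ 2 * (9 * u + 84 * c * u + 2688 * d * u ^ 2) * u + 2 * u ^ 2 := by
            refine Nat.add_le_add (Nat.mul_le_mul (Nat.mul_le_mul_left _ h5) hcl) ?_
            have : 1 ≤ u ^ 2 := Nat.one_le_pow _ _ hu1
            omega
        _ = 20 * u ^ 2 + 168 * c * u ^ 2 + 5376 * d * u ^ 3 := by ring
        _ ≤ 168 * u ^ 2 + 168 * c * u ^ 2 + 5376 * d * u ^ 3 := by omega
        _ = 168 * (c + 1) * u ^ 2 + 5376 * d * u ^ 3 := by ring
    have h5 : ((2 * (8 + u + c * k + 2 * (k * d) * (13 + 3 * u)) * Nat.clog 2 r + 2 : ℕ) : ℝ) ≤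
        168 * ((c : ℝ) + 1) * (u : ℝ) ^ 2 + 5376 * d * (u : ℝ) ^ 3 := by exact_mod_cast h4
    refine h5.trans ?_
    have h6 : (u : ℝ) ^ 2 ≤ L ^ 2 := pow_le_pow_left₀ (Nat.cast_nonneg _) hul 2
    have h7 : (u : ℝ) ^ 3 ≤ L ^ 3 := pow_le_pow_left₀ (Nat.cast_nonneg _) hul 3
    have h8 := mul_le_mul_of_nonneg_left h6 (show (0 : ℝ) ≤ 168 * ((c : ℝ) + 1) by positivity)
    have h9 := mul_le_mul_of_nonneg_left h7 (show (0 : ℝ) ≤ 5376 * (d : ℝ) by positivity)
    linarith

/-- few different columns -/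
theorem exists_few {X Y : Type*} [Fintype X] [Fintype Y] (F : X → Y → Bool) (d : ℕ)
    (hG : Growth F d) : ∃ (n : ℕ) (g : Y → Fin n), n ≤ ((comm F).rank + 1) ^ d ∧
      ∀ y y', g y = g y' → ∀ x, F x y = F x y' := by
  classical
  obtain ⟨T, hT, h⟩ := exists_trace F
  have h1 := hG T.card (fun i => (T.equivFin.symm i : X)) univ
  set I := (univ : Finset Y).image (fun (y : Y) (i : Fin T.card) => F (T.equivFin.symm i) y) with hI
  refine ⟨I.card, fun y => I.equivFin ⟨fun i => F (T.equivFin.symm i) y, by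
    rw [hI]; exact mem_image_of_mem _ (mem_univ y)⟩, h1.trans (Nat.pow_le_pow_left (by omega) d),
    fun y y' hyy => ?_⟩
  have h2 := I.equivFin.injective hyy
  have h3 : (fun i => F (T.equivFin.symm i) y) = fun i => F (T.equivFin.symm i) y' :=
    congrArg Subtype.val h2
  refine h y y' fun x hx => ?_
  have := congrFun h3 (T.equivFin ⟨x, hx⟩)
  simpa using this

theorem proto_vc {X Y : Type*} [Fintype X] [Fintype Y] (F : X → Y → Bool) (d : ℕ)
    (hG : Growth F d) :
    ∃ b, Proto F b ∧ (b : ℝ) ≤ d * Real.logb 2 ((comm F).rank + 1 : ℝ) + 2 := by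
  classical
  obtain ⟨n, g, hn, hg⟩ := exists_few F d hG
  set r := (comm F).rank with hr
  refine ⟨1 + Nat.clog 2 n, ?_, ?_⟩
  · refine Proto.sendY F g (Nat.clog 2 n) (by
      rw [Fintype.card_fin]
      exact Nat.le_pow_clog (by norm_num) n)
      (fun q x _ => if h : ∃ y : Y, g y = q then F x h.choose else false) 1
      (fun q => ?_) (fun x y => ?_)
    · exact Proto.alice _
        (fun x => if h : ∃ y : Y, g y = q then F x h.choose else false)
        (fun v _ _ => v) 0 (fun v => Proto.const _ v fun _ _ => rfl) (fun x y => rfl)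
    · have hex : ∃ y' : Y, g y' = g y := ⟨y, rfl⟩
      show F x y = if h : ∃ y' : Y, g y' = g y then F x h.choose else false
      rw [dif_pos hex]
      exact (hg _ _ hex.choose_spec x).symm
  · have h1 := clog_le n
    have h2 : Real.logb 2 (n : ℝ) ≤ d * Real.logb 2 ((r : ℝ) + 1) := by
      rcases Nat.eq_zero_or_pos n with h0 | h0
      · rw [h0, Nat.cast_zero, Real.logb_zero]
        have : 0 ≤ Real.logb 2 ((r : ℝ) + 1) := by
          apply Real.logb_nonneg (by norm_num)
          have : (0 : ℝ) ≤ r := Nat.cast_nonneg _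
          linarith
        positivity
      · have h3 : (n : ℝ) ≤ ((r : ℝ) + 1) ^ d := by exact_mod_cast hn
        calc Real.logb 2 (n : ℝ) ≤ Real.logb 2 (((r : ℝ) + 1) ^ d) :=
              Real.logb_le_logb_of_le (by norm_num) (by exact_mod_cast h0) h3
          _ = d * Real.logb 2 ((r : ℝ) + 1) := by rw [Real.logb_pow]
    push_cast
    linarith

/-- The colouring by the neighbourhoods. -/
theorem chrom_vc {V : Type*} [Fintype V] (G : SimpleGraph V) [DecidableRel G.Adj]
    (F : V → V → Bool) (hF : ∀ u v, G.Adj u v ↔ F u v = true) (d : ℕ) (hG : Growth F d) :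
    G.chromaticNumber.toNat ≤ ((G.adjMatrix ℝ).rank + 1) ^ d := by
  have hM : comm F = G.adjMatrix ℝ := by
    ext u v
    show (if F u v then (1 : ℝ) else 0) = if G.Adj u v then 1 else 0
    by_cases h : G.Adj u v
    · simp [h, (hF u v).mp h]
    · have : F u v = false := by
        rw [← Bool.not_eq_true]
        exact fun h' => h ((hF u v).mpr h')
      simp [h, this]
  obtain ⟨n, g, hn, hg⟩ := exists_few F d hG
  rw [hM] at hn
  have hcol : G.Colorable n := ⟨SimpleGraph.Coloring.mk g (fun {u v} huv heq => by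
    have h1 := hg u v heq u
    rw [(hF u v).mp huv] at h1
    exact G.loopless.irrefl u ((hF u u).mpr h1))⟩
  have h2 : G.chromaticNumber ≤ (n : ℕ∞) := hcol.chromaticNumber_le
  exact ((ENat.toNat_le_toNat h2 (ENat.natCast_ne_top n)).trans (ENat.toNat_natCast n).le).trans hn

theorem chrom_proto {V : Type*} (G : SimpleGraph V) (F : V → V → Bool)
    (hF : ∀ u v, G.Adj u v ↔ F u v = true) (b : ℕ) (h : Proto F b) :
    Real.log (G.chromaticNumber.toNat : ℝ) ≤ b * Real.log 2 := by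
  have hcol := colorable_of_proto G F hF h
  have h1 : G.chromaticNumber.toNat ≤ 2 ^ b := by
    have h2 : G.chromaticNumber ≤ ((2 ^ b : ℕ) : ℕ∞) := hcol.chromaticNumber_le
    exact (ENat.toNat_le_toNat h2 (ENat.natCast_ne_top (2 ^ b))).trans
      (ENat.toNat_natCast (2 ^ b)).le
  have hl2' : (0 : ℝ) < Real.log 2 := Real.log_pos (by norm_num)
  by_cases h0 : G.chromaticNumber.toNat = 0
  · rw [h0]
    simp only [Nat.cast_zero, Real.log_zero]
    positivity
  · rw [← Real.log_pow]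
    apply Real.log_le_log
    · exact_mod_cast Nat.pos_of_ne_zero h0
    · exact_mod_cast h1

end Pool.Agent.R533.VC
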