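import Pool.Agent.R533.VC.Pack
import Pool.Agent.H630R2.LR.Bounds

/-!
The log-rank conjecture for functions of small VC dimension.
-/

set_option autoImplicit false

namespace Pool.Agent.R533.VC

open Finset Pool.Agent.H630R2.LR Module

theorem proto_growth {X Y : Type*} [Fintype X] [Fintype Y] (F : X → Y → Bool) (D : ℕ)
    (hG : Growth F D) :
    ∃ c, Proto F c ∧ (c : ℝ) ≤ 28 * (D + 1) * (Real.logb 2 ((comm F).rank : ℝ) + 1) ^ 2 := by
  set r := (comm F).rank with hr
  have hl : (0 : ℝ) ≤ Real.logb 2 (r : ℝ) := logb_nonneg r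
  have hl1 : (1 : ℝ) ≤ (Real.logb 2 (r : ℝ) + 1) ^ 2 := by nlinarith
  by_cases hD : r + 1 ≤ 28 * (D + 1)
  · refine ⟨r + 1, proto_rank F, ?_⟩
    have h1 : ((r + 1 : ℕ) : ℝ) ≤ 28 * ((D : ℝ) + 1) := by exact_mod_cast hD
    refine h1.trans ?_
    have h2 : (0 : ℝ) ≤ 28 * ((D : ℝ) + 1) := by positivity
    nlinarith
  · push Not at hD
    have hr1 : 1 ≤ r := by omega
    set u := Nat.clog 2 (r + 1) with hu
    have hru : r + 1 ≤ 2 ^ u := Nat.le_pow_clog (by norm_num) _
    have hu1 : 1 ≤ u := Nat.clog_pos (by norm_num) (by omega)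
    have hR := rich F D hG (4 + u) (1 + u) (by
      rw [pow_add, ← hr]
      have : 16 * (r + 1) ≤ 16 * 2 ^ u := Nat.mul_le_mul_left _ hru
      simpa using this) (by
      rw [pow_add]
      omega)
    have e1 : 8 * 2 ^ (2 * D * (4 + u + (1 + u)) + 2) = 2 ^ (2 * D * (5 + 2 * u) + 5) := by
      have : 2 * D * (4 + u + (1 + u)) = 2 * D * (5 + 2 * u) := by ring
      rw [this, pow_add 2 _ 2, pow_add 2 _ 5]
      ring
    rw [e1] at hR
    have hP := nw F _ (Nat.one_le_two_pow) hR (6 + u + 2 * D * (5 + 2 * u)) (by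
      rw [← hr]
      have h1 : 1 ≤ 2 ^ (2 * D * (5 + 2 * u) + 5) := Nat.one_le_two_pow
      calc 2 * r * 2 ^ (2 * D * (5 + 2 * u) + 5) + 2
          ≤ 2 * r * 2 ^ (2 * D * (5 + 2 * u) + 5) + 2 * 2 ^ (2 * D * (5 + 2 * u) + 5) := by omega
        _ = 2 * (r + 1) * 2 ^ (2 * D * (5 + 2 * u) + 5) := by ring
        _ ≤ 2 * 2 ^ u * 2 ^ (2 * D * (5 + 2 * u) + 5) :=
            Nat.mul_le_mul_right _ (Nat.mul_le_mul_left _ hru)
        _ = 2 ^ (6 + u + 2 * D * (5 + 2 * u)) := by
            rw [← pow_succ', ← pow_add]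
            congr 1
            ring)
    refine ⟨_, hP, ?_⟩
    have hcl : Nat.clog 2 r ≤ u := Nat.clog_mono_right 2 (Nat.le_succ r)
    have hul : (u : ℝ) ≤ Real.logb 2 (r : ℝ) + 1 := by
      have h1 : u ≤ Nat.log 2 r + 1 :=
        Nat.clog_le_of_le_pow (Nat.lt_pow_succ_log_self (by norm_num) r)
      have h2 := log_le r
      have h3 : (u : ℝ) ≤ (Nat.log 2 r : ℝ) + 1 := by exact_mod_cast h1
      linarith
    have h4 : 2 * (6 + u + 2 * D * (5 + 2 * u)) * Nat.clog 2 r + 2 ≤ 28 * (D + 1) * u ^ 2 := by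
      calc 2 * (6 + u + 2 * D * (5 + 2 * u)) * Nat.clog 2 r + 2
          ≤ 2 * (6 + u + 2 * D * (5 + 2 * u)) * u + 2 := by
            have := Nat.mul_le_mul_left (2 * (6 + u + 2 * D * (5 + 2 * u))) hcl
            omega
        _ ≤ 28 * (D + 1) * u ^ 2 := by
            obtain ⟨z, hz⟩ := Nat.exists_eq_add_of_le hu1
            rw [hz]
            nlinarith [Nat.zero_le (D * z), Nat.zero_le (D * z ^ 2), Nat.zero_le z,
              Nat.zero_le (z ^ 2), Nat.zero_le D]
    have h5 : ((2 * (6 + u + 2 * D * (5 + 2 * u)) * Nat.clog 2 r + 2 : ℕ) : ℝ) ≤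
        28 * ((D : ℝ) + 1) * (u : ℝ) ^ 2 := by exact_mod_cast h4
    refine h5.trans ?_
    have h6 : (u : ℝ) ^ 2 ≤ (Real.logb 2 (r : ℝ) + 1) ^ 2 :=
      pow_le_pow_left₀ (Nat.cast_nonneg _) hul 2
    exact mul_le_mul_of_nonneg_left h6 (by positivity)

/-- The VC dimension of the columns (as functions of the rows) is at most `d`: if all `2 ^ k`
patterns occur in some `k` rows, then `k ≤ d`. -/
def VCdim {X Y : Type*} (F : X → Y → Bool) (d : ℕ) : Prop :=
  ∀ (k : ℕ) (x : Fin k → X), (∀ S : Fin k → Bool, ∃ y, ∀ i, F (x i) y = S i) → k ≤ d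

theorem choose_sum (m d : ℕ) : ∑ k ∈ Iic d, m.choose k ≤ (m + 1) ^ d := by
  induction d with
  | zero =>
    have e : Iic 0 = ({0} : Finset ℕ) := by ext; simp
    simp [e]
  | succ d ih =>
    have e : ∀ n, Iic n = range (n + 1) := fun n => by ext; simp
    rw [e] at ih ⊢
    rw [sum_range_succ', pow_succ]
    have h1 : ∑ k ∈ range (d + 1), m.choose (k + 1) ≤ m * ∑ k ∈ range (d + 1), m.choose k := by
      rw [mul_sum]
      refine sum_le_sum fun k _ => ?_
      have h2 := Nat.choose_succ_right_eq m k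
      calc m.choose (k + 1) ≤ m.choose (k + 1) * (k + 1) := Nat.le_mul_of_pos_right _ (by omega)
        _ = m.choose k * (m - k) := h2
        _ ≤ m.choose k * m := Nat.mul_le_mul_left _ (Nat.sub_le _ _)
        _ = m * m.choose k := by ring
    have h3 : 1 ≤ ∑ k ∈ range (d + 1), m.choose k := by
      rw [sum_range_succ']
      simp
    calc ∑ k ∈ range (d + 1), m.choose (k + 1) + m.choose 0
        ≤ m * ∑ k ∈ range (d + 1), m.choose k + ∑ k ∈ range (d + 1), m.choose k := by
          simp only [Nat.choose_zero_right]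
          omega
      _ = (∑ k ∈ range (d + 1), m.choose k) * (m + 1) := by ring
      _ ≤ (m + 1) ^ d * (m + 1) := Nat.mul_le_mul_right _ ih

theorem growth_of_vc {X Y : Type*} (F : X → Y → Bool) (d : ℕ) (h : VCdim F d) : Growth F d := by
  classical
  intro m x P
  set T := P.image (fun (y : Y) (i : Fin m) => F (x i) y) with hT
  let 𝒜 : Finset (Finset (Fin m)) := T.image (fun t => univ.filter (fun i => t i = true))
  have h1 : T.card = 𝒜.card := by
    refine (card_image_of_injOn ?_).symm
    intro t _ t' _ htt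
    funext i
    have h2 : i ∈ univ.filter (fun i => t i = true) ↔ i ∈ univ.filter (fun i => t' i = true) := by
      rw [show univ.filter (fun i => t i = true) = univ.filter (fun i => t' i = true) from htt]
    simp only [mem_filter, mem_univ, true_and] at h2
    cases h3 : t i <;> cases h4 : t' i <;> simp_all
  have h2 : 𝒜.vcDim ≤ d := by
    refine Finset.sup_le fun s hs => ?_
    rw [mem_shatterer] at hs
    refine h s.card (fun i => x (s.equivFin.symm i)) fun S => ?_
    obtain ⟨u, hu, hsu⟩ := hs (t := (univ.filter (fun i : Fin s.card => S i = true)).image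
      (fun i => (s.equivFin.symm i : Fin m))) (by
        intro i hi
        rw [mem_image] at hi
        obtain ⟨j, _, rfl⟩ := hi
        exact (s.equivFin.symm j).2)
    rw [mem_image] at hu
    obtain ⟨t, ht, rfl⟩ := hu
    rw [hT, mem_image] at ht
    obtain ⟨y, _, rfl⟩ := ht
    refine ⟨y, fun i => ?_⟩
    have h3 : (s.equivFin.symm i : Fin m) ∈ s ∩ univ.filter (fun i => F (x i) y = true) ↔
        (s.equivFin.symm i : Fin m) ∈ (univ.filter (fun i : Fin s.card => S i = true)).image
          (fun i => (s.equivFin.symm i : Fin m)) := by rw [hsu]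
    simp only [mem_inter, mem_filter, mem_univ, true_and, mem_image, coe_mem] at h3
    have h4 : (∃ a, S a = true ∧ (s.equivFin.symm a : Fin m) = s.equivFin.symm i) ↔ S i = true := by
      constructor
      · rintro ⟨a, ha, hai⟩
        have : a = i := s.equivFin.symm.injective (Subtype.ext hai)
        rwa [this] at ha
      · intro hi
        exact ⟨i, hi, rfl⟩
    rw [h4] at h3
    cases h5 : F (x (s.equivFin.symm i)) y <;> cases h6 : S i <;> simp_all
  rw [h1]
  refine (card_le_card_shatterer 𝒜).trans (card_shatterer_le_sum_vcDim.trans ?_)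
  rw [Fintype.card_fin]
  refine le_trans ?_ (choose_sum m d)
  exact sum_le_sum_of_subset (Iic_subset_Iic.mpr h2)

theorem growth_comp {X Y : Type*} (k : ℕ) (f : Fin k → X → Y → Bool) (D : Fin k → ℕ)
    (h : ∀ i, Growth (f i) (D i)) (g : X → (Fin k → Bool) → Bool) :
    Growth (fun x y => g x (fun i => f i x y)) (∑ i, D i) := by
  classical
  intro m x P
  let T : Fin k → Finset (Fin m → Bool) := fun i => P.image (fun (y : Y) (j : Fin m) => f i (x j) y)
  have h1 : P.image (fun (y : Y) (j : Fin m) => g (x j) (fun i => f i (x j) y)) ⊆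
      (Fintype.piFinset T).image (fun τ j => g (x j) (fun i => τ i j)) := by
    intro t ht
    rw [mem_image] at ht
    obtain ⟨y, hy, rfl⟩ := ht
    rw [mem_image]
    refine ⟨fun i j => f i (x j) y, ?_, rfl⟩
    rw [Fintype.mem_piFinset]
    intro i
    exact mem_image_of_mem _ hy
  refine (card_le_card h1).trans (card_image_le.trans ?_)
  rw [Fintype.card_piFinset, ← prod_pow_eq_pow_sum]
  exact prod_le_prod' fun i _ => h i m x P

theorem vc_sign {X Y : Type*} (s : ℕ) (u : X → Fin s → ℝ) (v : Y → Fin s → ℝ) :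
    VCdim (fun x y => decide (0 < ∑ j, u x j * v y j)) s := by
  intro k x hS
  by_contra hk
  push Not at hk
  have hli : ¬ LinearIndependent ℝ (fun i => u (x i)) := by
    intro hli
    have := hli.fintype_card_le_finrank
    simp at this
    omega
  rw [Fintype.not_linearIndependent_iff] at hli
  obtain ⟨c, hc, i0, hi0⟩ := hli
  -- we may assume that some coefficient is positive
  obtain ⟨c, hc, i0, hi0⟩ : ∃ c : Fin k → ℝ, ∑ i, c i • u (x i) = 0 ∧ ∃ i, 0 < c i := by
    rcases lt_or_gt_of_ne hi0 with h | h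
    · refine ⟨fun i => - c i, ?_, i0, by simpa using h⟩
      simp only [neg_smul, sum_neg_distrib, hc, neg_zero]
    · exact ⟨c, hc, i0, h⟩
  obtain ⟨y, hy⟩ := hS (fun i => decide (0 < c i))
  have h1 : ∀ i, (0 < ∑ j, u (x i) j * v y j) ↔ 0 < c i := by
    intro i
    have := hy i
    simpa using this
  have h2 : ∑ i, c i * ∑ j, u (x i) j * v y j = 0 := by
    have h3 : ∀ j, ∑ i, c i * u (x i) j = 0 := by
      intro j
      have := congrFun hc j
      simpa using this
    calc ∑ i, c i * ∑ j, u (x i) j * v y j = ∑ i, ∑ j, (c i * u (x i) j) * v y j := by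
          refine sum_congr rfl fun i _ => ?_
          rw [mul_sum]
          exact sum_congr rfl fun j _ => by ring
      _ = ∑ j, (∑ i, c i * u (x i) j) * v y j := by
          rw [sum_comm]
          exact sum_congr rfl fun j _ => by rw [sum_mul]
      _ = 0 := by simp [h3]
  have h4 : 0 < ∑ i, c i * ∑ j, u (x i) j * v y j := by
    refine sum_pos' (fun i _ => ?_) ⟨i0, mem_univ _, mul_pos hi0 ((h1 i0).mpr hi0)⟩
    by_cases hi : 0 < c i
    · exact (mul_pos hi ((h1 i).mpr hi)).le
    · have h5 : ¬ 0 < ∑ j, u (x i) j * v y j := fun h => hi ((h1 i).mp h)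
      push Not at hi h5
      exact mul_nonneg_of_nonpos_of_nonpos hi h5
  linarith

theorem vc_pattern {X Y : Type*} (F : X → Y → Bool) (a b : ℕ) (P : Fin a → Fin b → Bool)
    (h : ¬ ∃ (α : Fin a → X) (β : Fin b → Y), Function.Injective α ∧ Function.Injective β ∧
      ∀ i j, F (α i) (β j) = P i j) : VCdim F (a + Nat.clog 2 b - 1) := by
  classical
  intro k x hS
  by_contra hk
  have hk' : a + Nat.clog 2 b ≤ k := by omega
  apply h
  have hinj : Function.Injective x := by
    intro i i' hii
    by_contra hne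
    obtain ⟨y, hy⟩ := hS (fun l => decide (l = i))
    have h1 := hy i
    have h2 := hy i'
    rw [hii] at h1
    rw [h1] at h2
    simp [Ne.symm hne] at h2
  let S : Fin b → Fin k → Bool := fun j l =>
    if hl : l.1 < a then P ⟨l.1, hl⟩ j else (j.1).testBit (l.1 - a)
  choose y hy using hS
  refine ⟨fun i => x ⟨i.1, by omega⟩, fun j => y (S j), fun i i' hii => ?_, fun j j' hjj => ?_,
    fun i j => ?_⟩
  · have := hinj hii
    simp only [Fin.mk.injEq] at this
    exact Fin.ext this
  · have hbits : ∀ l, (j.1).testBit l = (j'.1).testBit l := by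
      intro l
      by_cases hl : l < Nat.clog 2 b
      · have h1 := hy (S j) ⟨a + l, by omega⟩
        have h2 := hy (S j') ⟨a + l, by omega⟩
        have hjj' : y (S j) = y (S j') := hjj
        rw [hjj', h2] at h1
        simp only [S, show ¬ a + l < a by omega, dite_false, Nat.add_sub_cancel_left] at h1
        exact h1.symm
      · have hb : b ≤ 2 ^ l := (Nat.le_pow_clog (by norm_num) b).trans
          (Nat.pow_le_pow_right (by norm_num) (by omega))
        rw [Nat.testBit_lt_two_pow (lt_of_lt_of_le j.2 hb),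
          Nat.testBit_lt_two_pow (lt_of_lt_of_le j'.2 hb)]
    exact Fin.ext (Nat.eq_of_testBit_eq hbits)
  · show F (x ⟨i.1, _⟩) (y (S j)) = P i j
    rw [hy (S j)]
    simp [S]

end Pool.Agent.R533.VC
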