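import Pool.Agent.R533.VC.Split

/-!
Monochromatic rectangles in all submatrices give a protocol (Nisan and Wigderson).
-/

set_option autoImplicit false

namespace Pool.Agent.R533.VC

open Finset Pool.Agent.H630R2.LR Module

/-- Every rectangle contains a monochromatic rectangle of relative size `1 / q`. -/
def Rich {X Y : Type*} (F : X → Y → Bool) (q : ℕ) : Prop :=
  ∀ (A : Finset X) (B : Finset Y), A.Nonempty → B.Nonempty →
    ∃ A' ⊆ A, ∃ B' ⊆ B, ∃ v : Bool, (∀ x ∈ A', ∀ y ∈ B', F x y = v) ∧
      A.card * B.card ≤ q * (A'.card * B'.card)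

/-- a protocol on a rectangle -/
def POn {X Y : Type*} (F : X → Y → Bool) (A : Finset X) (B : Finset Y) (c : ℕ) : Prop :=
  Proto (fun (x : A) (y : B) => F x y) c

theorem POn.sub {X Y : Type*} {F : X → Y → Bool} {A A' : Finset X} {B B' : Finset Y} {c : ℕ}
    (h : POn F A B c) (hA : A' ⊆ A) (hB : B' ⊆ B) : POn F A' B' c :=
  Proto.comap h (fun x : A' => (⟨x.1, hA x.2⟩ : A)) (fun y : B' => (⟨y.1, hB y.2⟩ : B))

theorem POn.of_empty {X Y : Type*} {F : X → Y → Bool} {A : Finset X} {B : Finset Y} {c : ℕ}
    (h : A.card * B.card = 0) : POn F A B c := by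
  refine Proto.mono (Proto.const _ true ?_) (Nat.zero_le _)
  rintro ⟨x, hx⟩ ⟨y, hy⟩
  rcases Nat.mul_eq_zero.mp h with h | h
  · rw [card_eq_zero] at h
    simp [h] at hx
  · rw [card_eq_zero] at h
    simp [h] at hy

theorem POn.extend {X Y : Type*} [DecidableEq X] [DecidableEq Y] {F : X → Y → Bool}
    {A A' : Finset X} {B B' : Finset Y} {c : ℕ} (h : POn F A' B' c) :
    ∃ Φ : A → B → Bool, Proto Φ c ∧ ∀ (x : A) (y : B), x.1 ∈ A' → y.1 ∈ B' → Φ x y = F x y := by
  by_cases hne : A'.Nonempty ∧ B'.Nonempty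
  · obtain ⟨⟨x0, hx0⟩, ⟨y0, hy0⟩⟩ := hne
    refine ⟨fun x y => (fun (x : A') (y : B') => F x y)
      (if hx : x.1 ∈ A' then ⟨x.1, hx⟩ else ⟨x0, hx0⟩)
      (if hy : y.1 ∈ B' then ⟨y.1, hy⟩ else ⟨y0, hy0⟩), Proto.comap h _ _, fun x y hx hy => ?_⟩
    simp only [hx, hy, dite_true]
  · refine ⟨fun _ _ => true, (Proto.const _ true fun _ _ => rfl).mono (Nat.zero_le _),
      fun x y hx hy => ?_⟩
    exact absurd ⟨⟨x.1, hx⟩, ⟨y.1, hy⟩⟩ hne

/-- the two parties peel off rows and columns until nothing is left -/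
theorem peel {X Y : Type*} [DecidableEq X] [DecidableEq Y] (F : X → Y → Bool) (q : ℕ) (hq : 1 ≤ q)
    (hR : Rich F q) (r c : ℕ) : ∀ (n : ℕ) (A : Finset X) (B : Finset Y), rk F A B ≤ r →
    (∀ A' ⊆ A, ∀ B' ⊆ B, rk F A' B' ≤ (r + 1) / 2 → POn F A' B' c) →
    ((A.card * B.card : ℕ) : ℝ) * (1 - 1 / (q : ℝ)) ^ n < 1 →
    ∃ (i : X → ℕ) (j : Y → ℕ), (∀ x, i x ≤ n) ∧ (∀ y, j y ≤ n) ∧
      ∀ s t, POn F (A.filter (fun x => i x = s)) (B.filter (fun y => j y = t)) c := by
  have hq0 : (0 : ℝ) < q := by exact_mod_cast hq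
  have hq1 : (0 : ℝ) ≤ 1 - 1 / (q : ℝ) := by
    have : 1 / (q : ℝ) ≤ 1 := by
      rw [div_le_one hq0]
      exact_mod_cast hq
    linarith
  intro n
  induction n with
  | zero =>
    intro A B _ _ hlt
    have h0 : A.card * B.card = 0 := by
      rw [pow_zero, mul_one] at hlt
      have : A.card * B.card < 1 := by exact_mod_cast hlt
      omega
    refine ⟨fun _ => 0, fun _ => 0, fun _ => le_rfl, fun _ => le_rfl, fun s t => ?_⟩
    exact (POn.of_empty h0).sub (filter_subset _ _) (filter_subset _ _)
  | succ n ih =>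
    intro A B hr hsmall hlt
    by_cases h0 : A.card * B.card = 0
    · refine ⟨fun _ => 0, fun _ => 0, fun _ => Nat.zero_le _, fun _ => Nat.zero_le _,
        fun s t => ?_⟩
      exact (POn.of_empty h0).sub (filter_subset _ _) (filter_subset _ _)
    · have hA : A.Nonempty := by
        rw [nonempty_iff_ne_empty]
        rintro rfl
        simp at h0
      have hB : B.Nonempty := by
        rw [nonempty_iff_ne_empty]
        rintro rfl
        simp at h0
      obtain ⟨A', hA', B', hB', v, hv, hcard⟩ := hR A B hA hB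
      have hs := rk_split F hA' hB' v hv
      rcases le_or_gt (rk F A' B) ((r + 1) / 2) with h1 | h1
      · -- remove the rows of A'
        have harea : (((A \ A').card * B.card : ℕ) : ℝ) ≤
            ((A.card * B.card : ℕ) : ℝ) * (1 - 1 / (q : ℝ)) := by
          have e1 : (A \ A').card + A'.card = A.card := card_sdiff_add_card_eq_card hA'
          have e2 : (A.card : ℝ) * B.card ≤ q * (A'.card * B.card) := by
            have : A.card * B.card ≤ q * (A'.card * B.card) :=
              hcard.trans (Nat.mul_le_mul_left _ (Nat.mul_le_mul_left _ (card_le_card hB')))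
            exact_mod_cast this
          have e3 : ((A \ A').card : ℝ) = A.card - A'.card := by
            rw [← e1]; push_cast; ring
          have e4 : (A.card : ℝ) * B.card * (1 / q) ≤ A'.card * B.card := by
            rw [mul_one_div, div_le_iff₀ hq0]
            linarith
          push_cast
          rw [e3]
          nlinarith
        obtain ⟨i, j, hi, hj, hP⟩ := ih (A \ A') B ((rk_mono F sdiff_subset subset_rfl).trans hr)
          (fun A₁ hA₁ B₁ hB₁ h => hsmall A₁ (hA₁.trans sdiff_subset) B₁ hB₁ h) (by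
            refine lt_of_le_of_lt (mul_le_mul_of_nonneg_right harea (pow_nonneg hq1 n)) ?_
            rw [mul_assoc, ← pow_succ']
            exact hlt)
        refine ⟨fun x => if x ∈ A' then n + 1 else i x, j, fun x => ?_,
          fun y => (hj y).trans (Nat.le_succ n), fun s t => ?_⟩
        · show (if x ∈ A' then n + 1 else i x) ≤ n + 1
          split_ifs
          · exact le_rfl
          · exact (hi x).trans (Nat.le_succ n)
        · by_cases hsn : s = n + 1
          · refine hsmall _ (filter_subset _ _) _ (filter_subset _ _) ((rk_mono F ?_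
              (filter_subset _ _)).trans h1)
            intro x hx
            rw [mem_filter] at hx
            by_contra hxA
            simp only [hxA, if_false] at hx
            have := hi x
            omega
          · refine (hP s t).sub ?_ subset_rfl
            intro x hx
            rw [mem_filter] at hx ⊢
            by_cases hxA : x ∈ A'
            · simp only [hxA, if_true] at hx
              exact absurd hx.2.symm hsn
            · simp only [hxA, if_false] at hx
              exact ⟨mem_sdiff.mpr ⟨hx.1, hxA⟩, hx.2⟩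
      · -- remove the columns of B'
        have h1' : rk F A B' ≤ (r + 1) / 2 := by omega
        have harea : ((A.card * (B \ B').card : ℕ) : ℝ) ≤
            ((A.card * B.card : ℕ) : ℝ) * (1 - 1 / (q : ℝ)) := by
          have e1 : (B \ B').card + B'.card = B.card := card_sdiff_add_card_eq_card hB'
          have e2 : (A.card : ℝ) * B.card ≤ q * (A.card * B'.card) := by
            have : A.card * B.card ≤ q * (A.card * B'.card) :=
              hcard.trans (Nat.mul_le_mul_left _ (Nat.mul_le_mul_right _ (card_le_card hA')))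
            exact_mod_cast this
          have e3 : ((B \ B').card : ℝ) = B.card - B'.card := by
            rw [← e1]; push_cast; ring
          have e4 : (A.card : ℝ) * B.card * (1 / q) ≤ A.card * B'.card := by
            rw [mul_one_div, div_le_iff₀ hq0]
            linarith
          push_cast
          rw [e3]
          nlinarith
        obtain ⟨i, j, hi, hj, hP⟩ := ih A (B \ B') ((rk_mono F subset_rfl sdiff_subset).trans hr)
          (fun A₁ hA₁ B₁ hB₁ h => hsmall A₁ hA₁ B₁ (hB₁.trans sdiff_subset) h) (by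
            refine lt_of_le_of_lt (mul_le_mul_of_nonneg_right harea (pow_nonneg hq1 n)) ?_
            rw [mul_assoc, ← pow_succ']
            exact hlt)
        refine ⟨i, fun y => if y ∈ B' then n + 1 else j y,
          fun x => (hi x).trans (Nat.le_succ n), fun y => ?_, fun s t => ?_⟩
        · show (if y ∈ B' then n + 1 else j y) ≤ n + 1
          split_ifs
          · exact le_rfl
          · exact (hj y).trans (Nat.le_succ n)
        · by_cases hsn : t = n + 1
          · refine hsmall _ (filter_subset _ _) _ (filter_subset _ _) ((rk_mono F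
              (filter_subset _ _) ?_).trans h1')
            intro y hy
            rw [mem_filter] at hy
            by_contra hyB
            simp only [hyB, if_false] at hy
            have := hj y
            omega
          · refine (hP s t).sub subset_rfl ?_
            intro y hy
            rw [mem_filter] at hy ⊢
            by_cases hyB : y ∈ B'
            · simp only [hyB, if_true] at hy
              exact absurd hy.2.symm hsn
            · simp only [hyB, if_false] at hy
              exact ⟨mem_sdiff.mpr ⟨hy.1, hyB⟩, hy.2⟩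

theorem level {X Y : Type*} (F : X → Y → Bool) (q : ℕ) (hq : 1 ≤ q) (hR : Rich F q) (n w : ℕ)
    (hw : n + 1 ≤ 2 ^ w) : ∀ (k r : ℕ), Nat.clog 2 r ≤ k → ∀ (A : Finset X) (B : Finset Y),
    rk F A B ≤ r → ((A.card * B.card : ℕ) : ℝ) * (1 - 1 / (q : ℝ)) ^ n < 1 →
    POn F A B (2 * w * k + 2) := by
  classical
  have hq0 : (0 : ℝ) < q := by exact_mod_cast hq
  have hq1 : (0 : ℝ) ≤ 1 - 1 / (q : ℝ) := by
    have : 1 / (q : ℝ) ≤ 1 := by
      rw [div_le_one hq0]
      exact_mod_cast hq
    linarith
  intro k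
  induction k with
  | zero =>
    intro r hr A B hrk _
    have hr1 : r ≤ 1 := by
      by_contra h
      have := Nat.clog_pos (b := 2) (n := r) (by norm_num) (by omega)
      omega
    refine Proto.mono (proto_rank (fun (x : A) (y : B) => F x y)) ?_
    have : (comm (fun (x : A) (y : B) => F x y)).rank ≤ r := hrk
    omega
  | succ k ih =>
    intro r hr A B hrk hlt
    have hr' : Nat.clog 2 ((r + 1) / 2) ≤ k := by
      rcases Nat.lt_or_ge 1 r with h1 | h1
      · have h2 := Nat.clog_of_two_le (b := 2) (n := r) (by norm_num) h1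
        have h3 : (r + 2 - 1) / 2 = (r + 1) / 2 := by congr 1
        rw [h3] at h2
        omega
      · have : (r + 1) / 2 ≤ 1 := by omega
        have h0 : Nat.clog 2 ((r + 1) / 2) = 0 := Nat.clog_of_right_le_one this 2
        omega
    obtain ⟨i, j, hi, hj, hP⟩ := peel F q hq hR r (2 * w * k + 2) n A B hrk (by
      intro A' hA' B' hB' h
      refine ih _ hr' A' B' h (lt_of_le_of_lt (mul_le_mul_of_nonneg_right ?_
        (pow_nonneg hq1 n)) hlt)
      exact_mod_cast Nat.mul_le_mul (card_le_card hA') (card_le_card hB')) hlt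
    have hext : ∀ s t, ∃ Φ : A → B → Bool, Proto Φ (2 * w * k + 2) ∧
        ∀ (x : A) (y : B), i x.1 = s → j y.1 = t → Φ x y = F x y := by
      intro s t
      obtain ⟨Φ, h1, h2⟩ := (hP s t).extend (A := A) (B := B)
      exact ⟨Φ, h1, fun x y hx hy => h2 x y (mem_filter.mpr ⟨x.2, hx⟩)
        (mem_filter.mpr ⟨y.2, hy⟩)⟩
    choose Φ hΦ hΦF using hext
    have e : 2 * w * (k + 1) + 2 = (2 * w * k + 2 + w) + w := by ring
    show Proto _ _
    rw [e]
    refine Proto.sendX (Q := Fin (n + 1)) _ (fun x => ⟨i x.1, Nat.lt_succ_of_le (hi x.1)⟩) w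
      (by simpa using hw) (fun s x y => Φ s (j y.1) x y) _ (fun s => ?_)
      (fun x y => (hΦF _ _ x y rfl rfl).symm)
    exact Proto.sendY (Q := Fin (n + 1)) _ (fun y => ⟨j y.1, Nat.lt_succ_of_le (hj y.1)⟩) w
      (by simpa using hw) (fun t x y => Φ s t x y) _ (fun t => hΦ s t) (fun x y => rfl)

theorem half_pow (q : ℕ) (hq : 1 ≤ q) : (1 - 1 / (q : ℝ)) ^ q ≤ 1 / 2 := by
  rcases Nat.lt_or_ge 1 q with h | h
  · have hq0 : (0 : ℝ) < q := by exact_mod_cast hq
    have hq1 : (0 : ℝ) < (q : ℝ) - 1 := by
      have : (1 : ℝ) < q := by exact_mod_cast h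
      linarith
    have h1 : (2 : ℝ) ≤ ((q : ℝ) / (q - 1)) ^ q := by
      have h2 := one_add_mul_le_pow (a := 1 / ((q : ℝ) - 1)) (by
        have : 0 ≤ 1 / ((q : ℝ) - 1) := by positivity
        linarith) q
      have h3 : 1 + 1 / ((q : ℝ) - 1) = q / (q - 1) := by
        field_simp
        ring
      rw [h3] at h2
      refine le_trans ?_ h2
      have h4 : 1 ≤ (q : ℝ) * (1 / (q - 1)) := by
        rw [mul_one_div, le_div_iff₀ hq1]
        linarith
      linarith
    have h5 : (1 - 1 / (q : ℝ)) = ((q : ℝ) / ((q : ℝ) - 1))⁻¹ := by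
      rw [inv_div]
      field_simp
    rw [h5, inv_pow, one_div]
    exact inv_anti₀ (by norm_num) h1
  · have : q = 1 := by omega
    subst this
    norm_num

/-- **Rectangles give protocols.** -/
theorem nw {X Y : Type*} [Fintype X] [Fintype Y] (F : X → Y → Bool) (q : ℕ) (hq : 1 ≤ q)
    (hR : Rich F q) (w : ℕ) (hw : 2 * (comm F).rank * q + 2 ≤ 2 ^ w) :
    Proto F (2 * w * Nat.clog 2 (comm F).rank + 2) := by
  classical
  set r := (comm F).rank with hr
  obtain ⟨repY, hrY, B, hB, hBc⟩ := exists_reps F
  obtain ⟨repX, hrX, A, hA, hAc⟩ := exists_reps (fun y x => F x y)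
  rw [comm_swap, Matrix.rank_transpose] at hAc
  have hq0 : (0 : ℝ) < q := by exact_mod_cast hq
  have hq1 : (0 : ℝ) ≤ 1 - 1 / (q : ℝ) := by
    have : 1 / (q : ℝ) ≤ 1 := by
      rw [div_le_one hq0]
      exact_mod_cast hq
    linarith
  have key := level F q hq hR (2 * r * q + 1) w hw (Nat.clog 2 r) r le_rfl A B (rk_le F A B) (by
    have h1 : ((A.card * B.card : ℕ) : ℝ) ≤ 4 ^ r := by
      have : A.card * B.card ≤ 2 ^ r * 2 ^ r := Nat.mul_le_mul hAc hBc
      calc ((A.card * B.card : ℕ) : ℝ) ≤ ((2 ^ r * 2 ^ r : ℕ) : ℝ) := by exact_mod_cast this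
        _ = 4 ^ r := by
          push_cast
          rw [← mul_pow]
          norm_num
    have h2 : (1 - 1 / (q : ℝ)) ^ (2 * r * q) ≤ (1 / 4) ^ r := by
      have e : 2 * r * q = q * (2 * r) := by ring
      rw [e, pow_mul]
      calc ((1 - 1 / (q : ℝ)) ^ q) ^ (2 * r) ≤ (1 / 2) ^ (2 * r) :=
            pow_le_pow_left₀ (pow_nonneg hq1 q) (half_pow q hq) _
        _ = (1 / 4) ^ r := by
          rw [pow_mul]
          norm_num
    have h3 : (1 - 1 / (q : ℝ)) < 1 := by
      have : 0 < 1 / (q : ℝ) := by positivity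
      linarith
    rw [pow_succ]
    calc ((A.card * B.card : ℕ) : ℝ) * ((1 - 1 / (q : ℝ)) ^ (2 * r * q) * (1 - 1 / (q : ℝ)))
        ≤ 4 ^ r * ((1 / 4) ^ r * (1 - 1 / (q : ℝ))) := by
          apply mul_le_mul h1 (mul_le_mul_of_nonneg_right h2 hq1) (by positivity) (by positivity)
      _ = 1 - 1 / (q : ℝ) := by
          rw [← mul_assoc, ← mul_pow]
          norm_num
      _ < 1 := h3)
  have h2 := Proto.comap key (fun x : X => (⟨repX x, hA x⟩ : A)) (fun y : Y => (⟨repY y, hB y⟩ : B))
  have h3 : (fun (x : X) (y : Y) => F (repX x) (repY y)) = F := by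
    funext x y
    rw [hrY]
    exact hrX y x
  exact h3 ▸ h2

end Pool.Agent.R533.VC
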