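import Pool.Agent.R533.VC.Err

/-!
Functions of polynomial growth have large monochromatic rectangles in all submatrices: packing
numbers by sampling rows.
-/

set_option autoImplicit false

namespace Pool.Agent.R533.VC

open Finset Pool.Agent.H630R2.LR Module

/-- At most `(m + 1) ^ D` different columns on any `m` rows. -/
def Growth {X Y : Type*} (F : X → Y → Bool) (D : ℕ) : Prop :=
  ∀ (m : ℕ) (x : Fin m → X) (P : Finset Y),
    (P.image (fun (y : Y) (i : Fin m) => F (x i) y)).card ≤ (m + 1) ^ D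

/-- the number of rows of `A` at which two columns differ -/
def dif {X Y : Type*} (F : X → Y → Bool) (A : Finset X) (y y' : Y) : ℕ :=
  (A.filter (fun x => F x y ≠ F x y')).card

theorem sample {X Y : Type*} (F : X → Y → Bool) (A : Finset X)
    (hA : A.Nonempty) (P : Finset Y) (e : ℕ) (he : 1 ≤ e)
    (hsep : ∀ y ∈ P, ∀ y' ∈ P, y ≠ y' → A.card < e * dif F A y y') (m : ℕ)
    (hm : (P.card : ℝ) ^ 2 * (1 - 1 / (e : ℝ)) ^ m < 1) :
    ∃ x : Fin m → X, ∀ y ∈ P, ∀ y' ∈ P, (∀ i, F (x i) y = F (x i) y') → y = y' := by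
  classical
  by_contra hcon
  push Not at hcon
  have he0 : (0 : ℝ) < e := by exact_mod_cast he
  let ag : Y × Y → Finset X := fun p => A.filter (fun x => F x p.1 = F x p.2)
  have hsub : Fintype.piFinset (fun _ : Fin m => A) ⊆
      P.offDiag.biUnion (fun p => Fintype.piFinset (fun _ : Fin m => ag p)) := by
    intro x hx
    rw [Fintype.mem_piFinset] at hx
    obtain ⟨y, hy, y', hy', hag, hne⟩ := hcon x
    rw [mem_biUnion]
    refine ⟨(y, y'), mem_offDiag.mpr ⟨hy, hy', hne⟩, ?_⟩
    rw [Fintype.mem_piFinset]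
    intro i
    exact mem_filter.mpr ⟨hx i, hag i⟩
  have h1 := (card_le_card hsub).trans card_biUnion_le
  simp only [Fintype.card_piFinset_const] at h1
  have hAc : (0 : ℝ) < A.card := by exact_mod_cast hA.card_pos
  have h2 : ∀ p ∈ P.offDiag, ((ag p).card : ℝ) ^ m ≤ ((1 - 1 / (e : ℝ)) * A.card) ^ m := by
    intro p hp
    rw [mem_offDiag] at hp
    refine pow_le_pow_left₀ (Nat.cast_nonneg _) ?_ _
    have h3 := hsep p.1 hp.1 p.2 hp.2.1 hp.2.2
    have h4 : (ag p).card + dif F A p.1 p.2 = A.card :=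
      card_filter_add_card_filter_not (s := A) (fun x => F x p.1 = F x p.2)
    have h5 : (A.card : ℝ) ≤ e * dif F A p.1 p.2 := by exact_mod_cast h3.le
    have h6 : ((ag p).card : ℝ) = A.card - dif F A p.1 p.2 := by
      rw [← h4]; push_cast; ring
    have h7 : (A.card : ℝ) * (1 / e) ≤ dif F A p.1 p.2 := by
      rw [mul_one_div, div_le_iff₀ he0]
      linarith
    rw [h6]
    nlinarith
  have h3 : (A.card : ℝ) ^ m ≤ (P.card : ℝ) ^ 2 * ((1 - 1 / (e : ℝ)) * A.card) ^ m := by
    calc (A.card : ℝ) ^ m ≤ ∑ p ∈ P.offDiag, ((ag p).card : ℝ) ^ m := by exact_mod_cast h1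
      _ ≤ ∑ _p ∈ P.offDiag, ((1 - 1 / (e : ℝ)) * A.card) ^ m := sum_le_sum h2
      _ = (P.offDiag.card : ℝ) * ((1 - 1 / (e : ℝ)) * A.card) ^ m := by
          rw [sum_const, nsmul_eq_mul]
      _ ≤ (P.card : ℝ) ^ 2 * ((1 - 1 / (e : ℝ)) * A.card) ^ m := by
          refine mul_le_mul_of_nonneg_right ?_ ?_
          · rw [offDiag_card, pow_two]
            have : P.card * P.card - P.card ≤ P.card * P.card := Nat.sub_le _ _
            exact_mod_cast this
          · refine pow_nonneg (mul_nonneg ?_ hAc.le) _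
            have : 1 / (e : ℝ) ≤ 1 := by
              rw [div_le_one he0]
              exact_mod_cast he
            linarith
  rw [mul_pow, ← mul_assoc] at h3
  have h4 : (0 : ℝ) < (A.card : ℝ) ^ m := pow_pos hAc m
  nlinarith

theorem pack {X Y : Type*} (F : X → Y → Bool) (D : ℕ)
    (hG : Growth F D) (A : Finset X) (hA : A.Nonempty) (P : Finset Y) (e : ℕ) (he : 1 ≤ e)
    (hsep : ∀ y ∈ P, ∀ y' ∈ P, y ≠ y' → A.card < e * dif F A y y') (s t : ℕ)
    (hs : 2 * e ≤ 2 ^ s) (ht : 2 * D ≤ 2 ^ t) : P.card ≤ 2 ^ (2 * D * (s + t) + 2) := by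
  set L := Nat.clog 2 P.card with hL
  have hPL : P.card ≤ 2 ^ L := Nat.le_pow_clog (by norm_num) _
  refine hPL.trans (Nat.pow_le_pow_right (by norm_num) ?_)
  have he0 : (0 : ℝ) < e := by exact_mod_cast he
  have he1 : (0 : ℝ) ≤ 1 - 1 / (e : ℝ) := by
    have : 1 / (e : ℝ) ≤ 1 := by
      rw [div_le_one he0]
      exact_mod_cast he
    linarith
  obtain ⟨x, hx⟩ := sample F A hA P e he hsep (e * (2 * L + 1)) (by
    have h1 : (P.card : ℝ) ≤ 2 ^ L := by exact_mod_cast hPL
    calc (P.card : ℝ) ^ 2 * (1 - 1 / (e : ℝ)) ^ (e * (2 * L + 1))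
        ≤ (2 ^ L) ^ 2 * (1 / 2) ^ (2 * L + 1) := by
          apply mul_le_mul
          · exact pow_le_pow_left₀ (Nat.cast_nonneg _) h1 _
          · rw [pow_mul]
            exact pow_le_pow_left₀ (pow_nonneg he1 e) (half_pow e he) _
          · exact pow_nonneg he1 _
          · positivity
      _ = 1 / 2 := by
          rw [← pow_mul, pow_succ, mul_comm L 2, ← mul_assoc, ← mul_pow]
          norm_num
      _ < 1 := by norm_num)
  have hP := hG _ x P
  rw [card_image_of_injOn (fun y hy y' hy' h => hx y hy y' hy' fun i => congrFun h i)] at hP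
  rcases Nat.lt_or_ge 1 P.card with h1 | h1
  · have h2 := Nat.pow_pred_clog_lt_self (b := 2) (by norm_num) h1
    rw [← hL] at h2
    have h3 : e * (2 * L + 1) + 1 ≤ 2 ^ s * (L + 1) := by
      calc e * (2 * L + 1) + 1 ≤ e * (2 * L + 1) + e := by omega
        _ = 2 * e * (L + 1) := by ring
        _ ≤ _ := Nat.mul_le_mul_right _ hs
    set a := (L + 1) / 2 ^ t with ha
    have h4 : L + 1 ≤ 2 ^ (t + a) := by
      have h5 := Nat.lt_mul_div_succ (L + 1) (b := 2 ^ t) (by positivity)
      rw [← ha] at h5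
      rw [pow_add]
      exact h5.le.trans (Nat.mul_le_mul_left _ (Nat.lt_two_pow_self (n := a)))
    have h6 : 2 ^ (L - 1) < 2 ^ ((s + t + a) * D) := by
      refine lt_of_lt_of_le h2 (hP.trans ?_)
      calc (e * (2 * L + 1) + 1) ^ D ≤ (2 ^ s * (L + 1)) ^ D := Nat.pow_le_pow_left h3 _
        _ ≤ (2 ^ s * 2 ^ (t + a)) ^ D := Nat.pow_le_pow_left (Nat.mul_le_mul_left _ h4) _
        _ = 2 ^ ((s + t + a) * D) := by rw [← pow_add, ← pow_mul, add_assoc]
    have h7 : L - 1 < (s + t + a) * D := (Nat.pow_lt_pow_iff_right (by norm_num)).mp h6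
    have h8 : 2 * D * a ≤ L + 1 :=
      (Nat.mul_le_mul_right a ht).trans (Nat.mul_div_le (L + 1) (2 ^ t))
    have h9 : 2 * ((s + t + a) * D) = 2 * D * (s + t) + 2 * D * a := by ring
    omega
  · have : L = 0 := Nat.clog_of_right_le_one h1 2
    omega

theorem cluster {X Y : Type*} (F : X → Y → Bool) (A : Finset X)
    (B : Finset Y) (hB : B.Nonempty) (e : ℕ) :
    ∃ P : Finset Y, (∀ y ∈ P, ∀ y' ∈ P, y ≠ y' → A.card < e * dif F A y y') ∧
      ∃ p ∈ P, ∃ B' ⊆ B, (∀ y ∈ B', e * dif F A y p ≤ A.card) ∧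
        B.card ≤ P.card * B'.card := by
  classical
  let Sep : Finset Y → Prop := fun P => ∀ y ∈ P, ∀ y' ∈ P, y ≠ y' → A.card < e * dif F A y y'
  obtain ⟨P, hP, hmax⟩ := exists_max_image (B.powerset.filter Sep) card
    ⟨∅, mem_filter.mpr ⟨by simp, by intro y hy; simp at hy⟩⟩
  rw [mem_filter, mem_powerset] at hP
  have hsymm : ∀ y y', dif F A y y' = dif F A y' y := by
    intro y y'
    unfold dif
    congr 1
    ext x
    simp [ne_comm]
  have hcov : ∀ y ∈ B, ∃ p ∈ P, e * dif F A y p ≤ A.card := by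
    intro y hy
    by_contra hcon
    push Not at hcon
    have hyP : y ∉ P := by
      intro hyP
      have := hcon y hyP
      have h0 : dif F A y y = 0 := by simp [dif]
      rw [h0] at this
      omega
    have h1 : insert y P ∈ B.powerset.filter Sep := by
      rw [mem_filter, mem_powerset]
      refine ⟨insert_subset hy hP.1, ?_⟩
      intro z hz z' hz' hne
      rw [mem_insert] at hz hz'
      rcases hz with rfl | hz
      · rcases hz' with rfl | hz'
        · exact absurd rfl hne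
        · exact hcon z' hz'
      · rcases hz' with rfl | hz'
        · rw [hsymm]
          exact hcon z hz
        · exact hP.2 z hz z' hz' hne
    have h2 := hmax _ h1
    rw [card_insert_of_notMem hyP] at h2
    omega
  have hPne : P.Nonempty := by
    obtain ⟨y, hy⟩ := hB
    obtain ⟨p, hp, _⟩ := hcov y hy
    exact ⟨p, hp⟩
  let Bp : Y → Finset Y := fun p => B.filter (fun y => e * dif F A y p ≤ A.card)
  obtain ⟨p, hp, hpmax⟩ := exists_max_image P (fun p => (Bp p).card) hPne
  refine ⟨P, hP.2, p, hp, Bp p, filter_subset _ _, fun y hy => (mem_filter.mp hy).2, ?_⟩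
  have hsub : B ⊆ P.biUnion Bp := by
    intro y hy
    obtain ⟨p, hp, h⟩ := hcov y hy
    exact mem_biUnion.mpr ⟨p, hp, mem_filter.mpr ⟨hy, h⟩⟩
  calc B.card ≤ ∑ p ∈ P, (Bp p).card := (card_le_card hsub).trans card_biUnion_le
    _ ≤ ∑ _p ∈ P, (Bp p).card := sum_le_sum fun q hq => hpmax q hq
    _ = P.card * (Bp p).card := by rw [sum_const, smul_eq_mul]

theorem rich {X Y : Type*} [Fintype X] [Fintype Y] (F : X → Y → Bool) (D : ℕ)
    (hG : Growth F D) (s t : ℕ) (hs : 16 * ((comm F).rank + 1) ≤ 2 ^ s) (ht : 2 * D ≤ 2 ^ t) :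
    Rich F (8 * 2 ^ (2 * D * (s + t) + 2)) := by
  classical
  intro A B hA hB
  set r := (comm F).rank with hr
  obtain ⟨P, hsep, p, hp, Bp, hBp, hclose, hcard⟩ := cluster F A B hB (8 * (r + 1))
  have hPc := pack F D hG A hA P (8 * (r + 1)) (by omega) hsep s t (by omega) ht
  -- the majority value of the column p
  have hmaj : ∃ v : Bool, A.card ≤ 2 * (A.filter (fun x => F x p = v)).card := by
    by_contra hcon
    push Not at hcon
    have h1 := hcon true
    have h2 := hcon false
    have h3 := card_filter_add_card_filter_not (s := A) (fun x => F x p = true)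
    have h4 : (A.filter (fun x => ¬ F x p = true)) = A.filter (fun x => F x p = false) := by
      ext x
      simp
    rw [h4] at h3
    omega
  obtain ⟨v, hv⟩ := hmaj
  set Av := A.filter (fun x => F x p = v) with hAv
  have hBpne : Bp.Nonempty := by
    rw [nonempty_iff_ne_empty]
    intro h0
    rw [h0, card_empty, mul_zero] at hcard
    have := hB.card_pos
    omega
  have herr : 4 * (r + 1) * (∑ x ∈ Av, (Bp.filter (fun y => F x y ≠ v)).card) ≤
      Av.card * Bp.card := by
    have h1 : (∑ x ∈ Av, (Bp.filter (fun y => F x y ≠ v)).card) =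
        ∑ y ∈ Bp, (Av.filter (fun x => F x y ≠ v)).card := by
      simp only [card_filter]
      exact sum_comm
    have h2 : ∀ y ∈ Bp, 8 * (r + 1) * (Av.filter (fun x => F x y ≠ v)).card ≤ 2 * Av.card := by
      intro y hy
      refine le_trans (Nat.mul_le_mul_left _ (?_ : _ ≤ dif F A y p)) ((hclose y hy).trans hv)
      refine card_le_card ?_
      intro x hx
      rw [mem_filter, hAv, mem_filter] at hx
      rw [mem_filter]
      refine ⟨hx.1.1, ?_⟩
      rw [hx.1.2]
      exact hx.2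
    have h3 : 2 * (4 * (r + 1) * ∑ y ∈ Bp, (Av.filter (fun x => F x y ≠ v)).card) ≤
        2 * (Av.card * Bp.card) := by
      calc 2 * (4 * (r + 1) * ∑ y ∈ Bp, (Av.filter (fun x => F x y ≠ v)).card)
          = ∑ y ∈ Bp, 8 * (r + 1) * (Av.filter (fun x => F x y ≠ v)).card := by
            rw [← mul_sum]; ring
        _ ≤ ∑ _y ∈ Bp, 2 * Av.card := sum_le_sum h2
        _ = 2 * (Av.card * Bp.card) := by rw [sum_const, smul_eq_mul]; ring
    rw [h1]
    omega
  obtain ⟨A', hA', B', hB', hval, hc⟩ := few_errors F Av Bp hBpne v r (rk_le F _ _) herr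
  refine ⟨A', hA'.trans (filter_subset _ _), B', hB'.trans hBp, v, hval, ?_⟩
  calc A.card * B.card ≤ (2 * Av.card) * (P.card * Bp.card) := Nat.mul_le_mul hv hcard
    _ = 2 * P.card * (Av.card * Bp.card) := by ring
    _ ≤ 2 * P.card * (4 * (A'.card * B'.card)) := Nat.mul_le_mul_left _ hc
    _ = 8 * P.card * (A'.card * B'.card) := by ring
    _ ≤ 8 * 2 ^ (2 * D * (s + t) + 2) * (A'.card * B'.card) :=
        Nat.mul_le_mul_right _ (Nat.mul_le_mul_left _ hPc)

end Pool.Agent.R533.VC
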