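import Pool.Agent.R533.VC.Main

/-!
Randomized protocols whose leaves are functions of small VC dimension.
-/

set_option autoImplicit false

namespace Pool.Agent.R533.VC

open Finset Pool.Agent.H630R2.LR Module

/-- Pieces of different areas with few errors: some piece is large and has few errors. -/
theorem average {ι : Type*} (S : Finset ι) (area err : ι → ℕ) (total E M N : ℕ)
    (hS : S.card ≤ N) (harea : ∑ i ∈ S, area i = total) (herr : ∑ i ∈ S, err i ≤ E)
    (hE : M * E ≤ total) (ht : 0 < total) :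
    ∃ i ∈ S, total ≤ 2 * N * area i ∧ M * err i ≤ 2 * area i := by
  classical
  by_contra hcon
  push Not at hcon
  let small := S.filter (fun i => 2 * N * area i < total)
  let big := S.filter (fun i => ¬ 2 * N * area i < total)
  have h1 : ∑ i ∈ small, area i + ∑ i ∈ big, area i = total := by
    rw [← harea]
    exact sum_filter_add_sum_filter_not S _ _
  have h2 : 2 * ∑ i ∈ small, area i < total := by
    have h3 : 2 * N * ∑ i ∈ small, area i ≤ N * (total - 1) := by
      calc 2 * N * ∑ i ∈ small, area i = ∑ i ∈ small, 2 * N * area i := by rw [mul_sum]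
        _ ≤ ∑ _i ∈ small, (total - 1) := sum_le_sum fun i hi => by
            have := (mem_filter.mp hi).2
            omega
        _ = small.card * (total - 1) := by rw [sum_const, smul_eq_mul]
        _ ≤ N * (total - 1) := Nat.mul_le_mul_right _ ((card_filter_le _ _).trans hS)
    rcases Nat.eq_zero_or_pos N with h0 | h0
    · have : S = ∅ := card_eq_zero.mp (by omega)
      rw [this, sum_empty] at harea
      omega
    · have h4 : N * (2 * ∑ i ∈ small, area i) ≤ N * (total - 1) := by
        calc N * (2 * ∑ i ∈ small, area i) = 2 * N * ∑ i ∈ small, area i := by ring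
          _ ≤ _ := h3
      have := Nat.le_of_mul_le_mul_left h4 h0
      omega
  have h5 : 2 * ∑ i ∈ big, area i ≤ M * E := by
    calc 2 * ∑ i ∈ big, area i = ∑ i ∈ big, 2 * area i := by rw [mul_sum]
      _ ≤ ∑ i ∈ big, M * err i := sum_le_sum fun i hi => by
          rw [mem_filter] at hi
          exact (hcon i hi.1 (by omega)).le
      _ ≤ ∑ i ∈ S, M * err i := sum_le_sum_of_subset (filter_subset _ _)
      _ = M * ∑ i ∈ S, err i := by rw [mul_sum]
      _ ≤ M * E := Nat.mul_le_mul_left _ herr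
  omega

/-- majority of `k` bits -/
def maj {k : ℕ} (b : Fin k → Bool) : Bool := decide (k < 2 * (univ.filter (fun i => b i = true)).card)

theorem maj_wrong {j : ℕ} (b : Fin (2 * j) → Bool) (v : Bool) (h : maj b ≠ v) :
    j ≤ (univ.filter (fun i => b i ≠ v)).card := by
  have h1 := card_filter_add_card_filter_not (s := (univ : Finset (Fin (2 * j))))
    (fun i => b i = true)
  rw [card_univ, Fintype.card_fin] at h1
  cases v with
  | true =>
    have h2 : ¬ (2 * j < 2 * (univ.filter (fun i => b i = true)).card) := by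
      intro h3
      apply h
      simp [maj, h3]
    have h4 : (univ.filter (fun i => ¬ b i = true)) = univ.filter (fun i => b i ≠ true) := rfl
    rw [h4] at h1
    omega
  | false =>
    have h2 : 2 * j < 2 * (univ.filter (fun i => b i = true)).card := by
      by_contra h3
      apply h
      simp [maj, h3]
    have h4 : (univ.filter (fun i => b i = true)) = univ.filter (fun i => b i ≠ false) := by
      ext i
      simp
    rw [← h4]
    omega

/-- majority votes of `2 j` random samples -/
theorem bad_count {Ω : Type*} [Fintype Ω] [DecidableEq Ω] (W : Finset Ω)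
    (hW : 3 * W.card ≤ Fintype.card Ω) (j : ℕ) :
    9 ^ j * (univ.filter (fun σ : Fin (2 * j) → Ω =>
      j ≤ (univ.filter (fun i => σ i ∈ W)).card)).card ≤ 8 ^ j * Fintype.card Ω ^ (2 * j) := by
  have h1 : 2 ^ j * (univ.filter (fun σ : Fin (2 * j) → Ω =>
      j ≤ (univ.filter (fun i => σ i ∈ W)).card)).card ≤
      (∑ ω : Ω, if ω ∈ W then 2 else 1) ^ (2 * j) := by
    rw [Fintype.sum_pow]
    calc 2 ^ j * (univ.filter (fun σ : Fin (2 * j) → Ω =>
          j ≤ (univ.filter (fun i => σ i ∈ W)).card)).card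
        = ∑ _σ ∈ univ.filter (fun σ : Fin (2 * j) → Ω =>
          j ≤ (univ.filter (fun i => σ i ∈ W)).card), 2 ^ j := by
          rw [sum_const, smul_eq_mul, mul_comm]
      _ ≤ ∑ σ ∈ univ.filter (fun σ : Fin (2 * j) → Ω =>
          j ≤ (univ.filter (fun i => σ i ∈ W)).card), ∏ i, (if σ i ∈ W then 2 else 1) := by
          refine sum_le_sum fun σ hσ => ?_
          rw [mem_filter] at hσ
          rw [prod_ite, prod_const, prod_const_one, mul_one]
          exact Nat.pow_le_pow_right (by norm_num) hσ.2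
      _ ≤ ∑ σ : Fin (2 * j) → Ω, ∏ i, (if σ i ∈ W then 2 else 1) :=
          sum_le_sum_of_subset (filter_subset _ _)
  have h2 : 3 * (∑ ω : Ω, if ω ∈ W then 2 else 1) ≤ 4 * Fintype.card Ω := by
    have h3 : (∑ ω : Ω, if ω ∈ W then 2 else 1) = Fintype.card Ω + W.card := by
      have h4 : ∀ ω : Ω, (if ω ∈ W then 2 else 1) = 1 + (if ω ∈ W then 1 else 0) := by
        intro ω
        split_ifs <;> rfl
      simp only [h4, sum_add_distrib, sum_const, card_univ, smul_eq_mul, mul_one]
      simp
    rw [h3]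
    omega
  have h5 : 2 ^ j * (9 ^ j * (univ.filter (fun σ : Fin (2 * j) → Ω =>
      j ≤ (univ.filter (fun i => σ i ∈ W)).card)).card) ≤
      2 ^ j * (8 ^ j * Fintype.card Ω ^ (2 * j)) := by
    calc 2 ^ j * (9 ^ j * (univ.filter (fun σ : Fin (2 * j) → Ω =>
          j ≤ (univ.filter (fun i => σ i ∈ W)).card)).card)
        = 9 ^ j * (2 ^ j * (univ.filter (fun σ : Fin (2 * j) → Ω =>
          j ≤ (univ.filter (fun i => σ i ∈ W)).card)).card) := by ring
      _ ≤ 9 ^ j * (∑ ω : Ω, if ω ∈ W then 2 else 1) ^ (2 * j) := Nat.mul_le_mul_left _ h1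
      _ = (3 * (∑ ω : Ω, if ω ∈ W then 2 else 1)) ^ (2 * j) := by
          rw [mul_pow, pow_mul 3 2 j]
          norm_num
      _ ≤ (4 * Fintype.card Ω) ^ (2 * j) := Nat.pow_le_pow_left h2 _
      _ = 2 ^ j * (8 ^ j * Fintype.card Ω ^ (2 * j)) := by
          rw [mul_pow, pow_mul 4 2 j, ← mul_assoc, ← mul_pow]
          norm_num
  exact Nat.le_of_mul_le_mul_left h5 (by positivity)

/-- a covering of the columns by few balls -/
theorem cover {X Y : Type*} (F : X → Y → Bool) (A : Finset X) (B : Finset Y) (e : ℕ) :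
    ∃ P : Finset Y, (∀ y ∈ P, ∀ y' ∈ P, y ≠ y' → A.card < e * dif F A y y') ∧
      ∃ cen : Y → Y, ∀ y ∈ B, cen y ∈ P ∧ e * dif F A y (cen y) ≤ A.card := by
  classical
  let Sep : Finset Y → Prop := fun P => ∀ y ∈ P, ∀ y' ∈ P, y ≠ y' → A.card < e * dif F A y y'
  obtain ⟨P, hP, hmax⟩ := exists_max_image (B.powerset.filter Sep) card
    ⟨∅, mem_filter.mpr ⟨by simp, by intro y hy; simp at hy⟩⟩
  rw [mem_filter, mem_powerset] at hP
  have hsymm : ∀ y y', dif F A y y' = dif F A y' y := by
    intro y y'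
    unfold dif
    congr 1
    ext x
    simp [ne_comm]
  have hcov : ∀ y ∈ B, ∃ p ∈ P, e * dif F A y p ≤ A.card := by
    intro y hy
    by_contra hcon
    push Not at hcon
    have hyP : y ∉ P := by
      intro hyP
      have := hcon y hyP
      have h0 : dif F A y y = 0 := by simp [dif]
      rw [h0] at this
      omega
    have h1 : insert y P ∈ B.powerset.filter Sep := by
      rw [mem_filter, mem_powerset]
      refine ⟨insert_subset hy hP.1, ?_⟩
      intro z hz z' hz' hne
      rw [mem_insert] at hz hz'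
      rcases hz with rfl | hz
      · rcases hz' with rfl | hz'
        · exact absurd rfl hne
        · exact hcon z' hz'
      · rcases hz' with rfl | hz'
        · rw [hsymm]
          exact hcon z hz
        · exact hP.2 z hz z' hz' hne
    have h2 := hmax _ h1
    rw [card_insert_of_notMem hyP] at h2
    omega
  refine ⟨P, hP.2, fun y => if h : ∃ p ∈ P, e * dif F A y p ≤ A.card then h.choose else y,
    fun y hy => ?_⟩
  have h := hcov y hy
  show (if h : ∃ p ∈ P, e * dif F A y p ≤ A.card then h.choose else y) ∈ P ∧ _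
  simp only [dif_pos h]
  exact h.choose_spec

theorem pow_89 (m : ℕ) : 8 ^ (6 * m) * 2 ^ m ≤ 9 ^ (6 * m) := by
  rw [pow_mul, pow_mul, ← mul_pow]
  exact Nat.pow_le_pow_left (by norm_num) m

section approx

variable {X Y Ω T : Type*} [Fintype X] [Fintype Y] [Fintype Ω] [Fintype T]
  (F : X → Y → Bool) (τ : Ω → X → Y → T) (h : Ω → T → X → Y → Bool)

/-- the majority vote of the samples `σ` -/
def vote {k : ℕ} (σ : Fin k → Ω) (x : X) (y : Y) : Bool :=
  maj (fun i => h (σ i) (τ (σ i) x y) x y)

omit [Fintype X] [Fintype T] in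
theorem exists_sample (hΩ : 0 < Fintype.card Ω)
    (herr : ∀ x y, 3 * (univ.filter (fun ω => h ω (τ ω x y) x y ≠ F x y)).card ≤ Fintype.card Ω)
    (A : Finset X) (B : Finset Y) (u : ℕ) (hu : (comm F).rank + 1 ≤ 2 ^ u) :
    ∃ σ : Fin (2 * (6 * (6 + u))) → Ω, 64 * ((comm F).rank + 1) *
      ((A ×ˢ B).filter (fun p => vote τ h σ p.1 p.2 ≠ F p.1 p.2)).card ≤ A.card * B.card := by
  classical
  set m := 6 * (6 + u) with hm
  let err : (Fin (2 * m) → Ω) → ℕ := fun σ =>
    ((A ×ˢ B).filter (fun p => vote τ h σ p.1 p.2 ≠ F p.1 p.2)).card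
  let W : X × Y → Finset Ω := fun p => univ.filter (fun ω => h ω (τ ω p.1 p.2) p.1 p.2 ≠ F p.1 p.2)
  have h1 : 9 ^ m * ∑ σ, err σ ≤ 8 ^ m * Fintype.card Ω ^ (2 * m) * (A.card * B.card) := by
    calc 9 ^ m * ∑ σ, err σ
        = 9 ^ m * ∑ p ∈ A ×ˢ B, (univ.filter (fun σ : Fin (2 * m) → Ω =>
            vote τ h σ p.1 p.2 ≠ F p.1 p.2)).card := by
          congr 1
          simp only [err, card_filter]
          exact sum_comm
      _ ≤ 9 ^ m * ∑ p ∈ A ×ˢ B, (univ.filter (fun σ : Fin (2 * m) → Ω =>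
            m ≤ (univ.filter (fun i => σ i ∈ W p)).card)).card := by
          refine Nat.mul_le_mul_left _ (sum_le_sum fun p _ => card_le_card ?_)
          intro σ hσ
          rw [mem_filter] at hσ ⊢
          refine ⟨mem_univ _, ?_⟩
          have := maj_wrong _ _ hσ.2
          simpa [W] using this
      _ = ∑ p ∈ A ×ˢ B, 9 ^ m * (univ.filter (fun σ : Fin (2 * m) → Ω =>
            m ≤ (univ.filter (fun i => σ i ∈ W p)).card)).card := by rw [mul_sum]
      _ ≤ ∑ _p ∈ A ×ˢ B, 8 ^ m * Fintype.card Ω ^ (2 * m) :=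
          sum_le_sum fun p _ => bad_count (W p) (herr p.1 p.2) m
      _ = 8 ^ m * Fintype.card Ω ^ (2 * m) * (A.card * B.card) := by
          rw [sum_const, smul_eq_mul, card_product, mul_comm]
  have h2 : ∃ σ, 9 ^ m * err σ ≤ 8 ^ m * (A.card * B.card) := by
    by_contra hcon
    push Not at hcon
    have hne : (univ : Finset (Fin (2 * m) → Ω)).Nonempty := by
      have : Nonempty Ω := Fintype.card_pos_iff.mp hΩ
      exact univ_nonempty
    have h3 : ∑ _σ : Fin (2 * m) → Ω, 8 ^ m * (A.card * B.card) < ∑ σ, 9 ^ m * err σ :=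
      sum_lt_sum_of_nonempty hne fun σ _ => hcon σ
    rw [sum_const, card_univ, Fintype.card_fun, Fintype.card_fin, smul_eq_mul] at h3
    have h4 : Fintype.card Ω ^ (2 * m) * (8 ^ m * (A.card * B.card)) =
      8 ^ m * Fintype.card Ω ^ (2 * m) * (A.card * B.card) := by ring
    rw [h4] at h3
    have h5 : ∑ σ, 9 ^ m * err σ = 9 ^ m * ∑ σ, err σ := (mul_sum _ _ _).symm
    rw [h5] at h3
    exact absurd h1 (not_le.mpr h3)
  obtain ⟨σ, hσ⟩ := h2
  refine ⟨σ, ?_⟩
  have h5 : 64 * ((comm F).rank + 1) ≤ 2 ^ (6 + u) := by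
    rw [pow_add]
    exact Nat.mul_le_mul (by norm_num) hu
  have h6 : 9 ^ m * (2 ^ (6 + u) * err σ) ≤ 9 ^ m * (A.card * B.card) := by
    calc 9 ^ m * (2 ^ (6 + u) * err σ) = 2 ^ (6 + u) * (9 ^ m * err σ) := by ring
      _ ≤ 2 ^ (6 + u) * (8 ^ m * (A.card * B.card)) := Nat.mul_le_mul_left _ hσ
      _ = (8 ^ m * 2 ^ (6 + u)) * (A.card * B.card) := by ring
      _ ≤ 9 ^ m * (A.card * B.card) := Nat.mul_le_mul_right _ (pow_89 (6 + u))
  have h7 := Nat.le_of_mul_le_mul_left h6 (by positivity)
  exact (Nat.mul_le_mul_right _ h5).trans h7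

theorem approx_rich (hΩ : 0 < Fintype.card Ω)
    (hrect : ∀ ω x x' y y', τ ω x y = τ ω x' y' → τ ω x y' = τ ω x y) (d : ℕ)
    (hd : ∀ ω t, Growth (h ω t) d)
    (herr : ∀ x y, 3 * (univ.filter (fun ω => h ω (τ ω x y) x y ≠ F x y)).card ≤ Fintype.card Ω)
    (u k s t : ℕ) (hu : (comm F).rank + 1 ≤ 2 ^ u) (hk : k = 2 * (6 * (6 + u)))
    (hs : 32 * ((comm F).rank + 1) ≤ 2 ^ s) (ht : 2 * (k * d) ≤ 2 ^ t) :
    Rich F (32 * Fintype.card T ^ k * 2 ^ (2 * (k * d) * (s + t) + 2)) := by
  classical
  subst hk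
  intro A B hA hB
  set r := (comm F).rank with hr
  set k := 2 * (6 * (6 + u)) with hk
  obtain ⟨σ, hσ⟩ := exists_sample F τ h hΩ herr A B u hu
  rw [← hr] at hσ
  -- the rectangle of a label
  let lab : X × Y → (Fin k → T) := fun p i => τ (σ i) p.1 p.2
  have htot : 0 < A.card * B.card := Nat.mul_pos hA.card_pos hB.card_pos
  obtain ⟨lb, -, hl1, hl2⟩ := average (univ : Finset (Fin k → T))
    (fun l => ((A ×ˢ B).filter (fun p => lab p = l)).card)
    (fun l => (((A ×ˢ B).filter (fun p => vote τ h σ p.1 p.2 ≠ F p.1 p.2)).filter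
      (fun p => lab p = l)).card) (A.card * B.card)
    ((A ×ˢ B).filter (fun p => vote τ h σ p.1 p.2 ≠ F p.1 p.2)).card
    (64 * (r + 1)) (Fintype.card T ^ k) (by
      rw [card_univ, Fintype.card_fun, Fintype.card_fin])
    (by rw [← card_product]; exact (card_eq_sum_card_fiberwise fun p _ => by simp).symm)
    (by exact (card_eq_sum_card_fiberwise fun p _ => by simp).symm.le) hσ htot
  let A1 := A.filter (fun x => ∃ y ∈ B, lab (x, y) = lb)
  let B1 := B.filter (fun y => ∃ x ∈ A, lab (x, y) = lb)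
  have hrec : (A ×ˢ B).filter (fun p => lab p = lb) = A1 ×ˢ B1 := by
    ext ⟨x, y⟩
    simp only [mem_filter, mem_product, A1, B1]
    constructor
    · rintro ⟨⟨hx, hy⟩, hxy⟩
      exact ⟨⟨hx, y, hy, hxy⟩, hy, x, hx, hxy⟩
    · rintro ⟨⟨hx, y', hy', h1⟩, hy, x', hx', h2⟩
      refine ⟨⟨hx, hy⟩, ?_⟩
      funext i
      have e1 : τ (σ i) x y' = lb i := congrFun h1 i
      have e2 : τ (σ i) x' y = lb i := congrFun h2 i
      have e3 := hrect (σ i) x x' y' y (e1.trans e2.symm)
      exact e3.trans e1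
  have hin : ∀ x ∈ A1, ∀ y ∈ B1, ∀ i, τ (σ i) x y = lb i := by
    intro x hx y hy i
    have : (x, y) ∈ (A ×ˢ B).filter (fun p => lab p = lb) := by
      rw [hrec]
      exact mem_product.mpr ⟨hx, hy⟩
    exact congrFun (mem_filter.mp this).2 i
  rw [hrec, card_product] at hl1 hl2
  let G : X → Y → Bool := fun x y => maj (fun i => h (σ i) (lb i) x y)
  have hGv : ∀ x ∈ A1, ∀ y ∈ B1, vote τ h σ x y = G x y := by
    intro x hx y hy
    show maj _ = maj _
    congr 1
    funext i
    rw [hin x hx y hy i]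
  have hG : Growth G (k * d) := by
    have := growth_comp k (fun i => h (σ i) (lb i)) (fun _ => d) (fun i => hd _ _)
      (fun _ b => maj b)
    rwa [sum_const, card_univ, Fintype.card_fin, smul_eq_mul] at this
  have h1pos : 0 < A1.card * B1.card := by
    rcases Nat.eq_zero_or_pos (A1.card * B1.card) with h0 | h0
    · rw [h0, mul_zero] at hl1
      omega
    · exact h0
  have hA1 : A1.Nonempty := card_pos.mp (Nat.pos_of_mul_pos_right h1pos)
  have hA1 : A1.Nonempty := by
    rw [← card_pos]
    exact Nat.pos_of_ne_zero fun h0 => by rw [h0, zero_mul] at h1pos; omega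
  -- the clusters of the columns
  obtain ⟨P, hsep, cen, hcen⟩ := cover G A1 B1 (16 * (r + 1))
  have hPc := pack G (k * d) hG A1 hA1 P (16 * (r + 1)) (by omega) hsep s t (by omega) ht
  obtain ⟨p, hp, hp1, hp2⟩ := average P
    (fun p => A1.card * (B1.filter (fun y => cen y = p)).card)
    (fun p => ((A1 ×ˢ (B1.filter (fun y => cen y = p))).filter
      (fun z => G z.1 z.2 ≠ F z.1 z.2)).card) (A1.card * B1.card)
    (((A ×ˢ B).filter (fun p => vote τ h σ p.1 p.2 ≠ F p.1 p.2)).filter
      (fun p => lab p = lb)).card (32 * (r + 1)) P.card le_rfl (by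
        rw [← mul_sum]
        congr 1
        exact (card_eq_sum_card_fiberwise fun y hy => (hcen y hy).1).symm) (by
        have e1 : ((A ×ˢ B).filter (fun p => vote τ h σ p.1 p.2 ≠ F p.1 p.2)).filter
            (fun p => lab p = lb) = (A1 ×ˢ B1).filter (fun z => G z.1 z.2 ≠ F z.1 z.2) := by
          rw [filter_comm, hrec]
          apply filter_congr
          rintro ⟨x, y⟩ hxy
          rw [mem_product] at hxy
          rw [hGv x hxy.1 y hxy.2]
        rw [e1, card_eq_sum_card_fiberwise (f := fun z : X × Y => cen z.2) (t := P)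
          (fun z hz => (hcen _ (mem_product.mp (mem_filter.mp hz).1).2).1)]
        refine sum_le_sum fun q _ => card_le_card ?_
        rintro ⟨x, y⟩ hz
        have hz1 := mem_filter.mp hz
        have hz2 := mem_product.mp hz1.1
        have hz3 := mem_filter.mp hz2.2
        exact mem_filter.mpr ⟨mem_filter.mpr ⟨mem_product.mpr ⟨hz2.1, hz3.1⟩, hz1.2⟩, hz3.2⟩) (by
        have e2 : 64 * (r + 1) * (((A ×ˢ B).filter
            (fun p => vote τ h σ p.1 p.2 ≠ F p.1 p.2)).filter (fun p => lab p = lb)).card =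
            2 * (32 * (r + 1) * (((A ×ˢ B).filter
            (fun p => vote τ h σ p.1 p.2 ≠ F p.1 p.2)).filter (fun p => lab p = lb)).card) := by
          ring
        rw [e2] at hl2
        omega) h1pos
  set cl := B1.filter (fun y => cen y = p) with hcl
  have hclne : cl.Nonempty := by
    rw [← card_pos]
    refine Nat.pos_of_ne_zero fun h0 => ?_
    rw [h0, mul_zero, mul_zero] at hp1
    omega
  -- the majority value of the column p
  have hmaj : ∃ v : Bool, A1.card ≤ 2 * (A1.filter (fun x => G x p = v)).card := by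
    by_contra hcon
    push Not at hcon
    have h1 := hcon true
    have h2 := hcon false
    have h3 := card_filter_add_card_filter_not (s := A1) (fun x => G x p = true)
    have h4 : (A1.filter (fun x => ¬ G x p = true)) = A1.filter (fun x => G x p = false) := by
      ext x
      simp
    rw [h4] at h3
    omega
  obtain ⟨v, hv⟩ := hmaj
  set Av := A1.filter (fun x => G x p = v) with hAv
  have herr1 : 4 * (r + 1) * (∑ x ∈ Av, (cl.filter (fun y => F x y ≠ v)).card) ≤
      Av.card * cl.card := by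
    have e1 : (∑ x ∈ Av, (cl.filter (fun y => F x y ≠ v)).card) ≤
        ((A1 ×ˢ cl).filter (fun z => G z.1 z.2 ≠ F z.1 z.2)).card +
          ∑ y ∈ cl, (Av.filter (fun x => G x y ≠ v)).card := by
      have e2 : (∑ y ∈ cl, (Av.filter (fun x => G x y ≠ v)).card) =
          ∑ x ∈ Av, (cl.filter (fun y => G x y ≠ v)).card := by
        simp only [card_filter]
        exact sum_comm
      have e3 : ((A1 ×ˢ cl).filter (fun z => G z.1 z.2 ≠ F z.1 z.2)).card =
          ∑ x ∈ A1, (cl.filter (fun y => G x y ≠ F x y)).card := by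
        simp only [card_filter]
        rw [sum_product]
      rw [e2, e3]
      calc (∑ x ∈ Av, (cl.filter (fun y => F x y ≠ v)).card)
          ≤ ∑ x ∈ Av, ((cl.filter (fun y => G x y ≠ F x y)).card +
              (cl.filter (fun y => G x y ≠ v)).card) := by
            refine sum_le_sum fun x _ => ?_
            refine le_trans (card_le_card ?_) (card_union_le _ _)
            intro y hy
            have hy1 := (mem_filter.mp hy).1
            have hy2 := (mem_filter.mp hy).2
            by_cases hg : G x y = v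
            · refine mem_union_left _ (mem_filter.mpr ⟨hy1, ?_⟩)
              rw [hg]
              exact fun h => hy2 h.symm
            · exact mem_union_right _ (mem_filter.mpr ⟨hy1, hg⟩)
        _ = ∑ x ∈ Av, (cl.filter (fun y => G x y ≠ F x y)).card +
              ∑ x ∈ Av, (cl.filter (fun y => G x y ≠ v)).card := sum_add_distrib
        _ ≤ _ := Nat.add_le_add_right (sum_le_sum_of_subset (filter_subset _ _)) _
    have e4 : ∀ y ∈ cl, 16 * (r + 1) * (Av.filter (fun x => G x y ≠ v)).card ≤ A1.card := by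
      intro y hy
      rw [hcl, mem_filter] at hy
      have h5 := (hcen y hy.1).2
      rw [hy.2] at h5
      refine le_trans (Nat.mul_le_mul_left _ (?_ : _ ≤ dif G A1 y p)) h5
      refine card_le_card ?_
      intro x hx
      rw [mem_filter, hAv, mem_filter] at hx
      rw [mem_filter]
      refine ⟨hx.1.1, ?_⟩
      rw [hx.1.2]
      exact hx.2
    have e5 : 16 * (r + 1) * ∑ y ∈ cl, (Av.filter (fun x => G x y ≠ v)).card ≤
        A1.card * cl.card := by
      calc 16 * (r + 1) * ∑ y ∈ cl, (Av.filter (fun x => G x y ≠ v)).card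
          = ∑ y ∈ cl, 16 * (r + 1) * (Av.filter (fun x => G x y ≠ v)).card := by rw [mul_sum]
        _ ≤ ∑ _y ∈ cl, A1.card := sum_le_sum e4
        _ = A1.card * cl.card := by rw [sum_const, smul_eq_mul, mul_comm]
    have e6 : 16 * (r + 1) * ((A1 ×ˢ cl).filter (fun z => G z.1 z.2 ≠ F z.1 z.2)).card ≤
        A1.card * cl.card := by
      have : 32 * (r + 1) * ((A1 ×ˢ cl).filter (fun z => G z.1 z.2 ≠ F z.1 z.2)).card =
        2 * (16 * (r + 1) * ((A1 ×ˢ cl).filter (fun z => G z.1 z.2 ≠ F z.1 z.2)).card) := by ring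
      rw [this] at hp2
      omega
    have e7 : 4 * (4 * (r + 1) * (∑ x ∈ Av, (cl.filter (fun y => F x y ≠ v)).card)) ≤
        4 * (Av.card * cl.card) := by
      calc 4 * (4 * (r + 1) * (∑ x ∈ Av, (cl.filter (fun y => F x y ≠ v)).card))
          = 16 * (r + 1) * (∑ x ∈ Av, (cl.filter (fun y => F x y ≠ v)).card) := by ring
        _ ≤ 16 * (r + 1) * (((A1 ×ˢ cl).filter (fun z => G z.1 z.2 ≠ F z.1 z.2)).card +
              ∑ y ∈ cl, (Av.filter (fun x => G x y ≠ v)).card) := Nat.mul_le_mul_left _ e1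
        _ ≤ A1.card * cl.card + A1.card * cl.card := by rw [mul_add]; omega
        _ = 2 * (A1.card * cl.card) := by ring
        _ ≤ 2 * (2 * Av.card * cl.card) := Nat.mul_le_mul_left _ (Nat.mul_le_mul_right _ hv)
        _ = 4 * (Av.card * cl.card) := by ring
    omega
  obtain ⟨A', hA', B', hB', hval, hc⟩ := few_errors F Av cl hclne v r (rk_le F _ _) herr1
  refine ⟨A', hA'.trans ((filter_subset _ _).trans (filter_subset _ _)), B',
    hB'.trans ((filter_subset _ _).trans (filter_subset _ _)), v, hval, ?_⟩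
  set N := Fintype.card T ^ k with hN
  calc A.card * B.card ≤ 2 * N * (A1.card * B1.card) := hl1
    _ ≤ 2 * N * (2 * P.card * (A1.card * cl.card)) := Nat.mul_le_mul_left _ hp1
    _ ≤ 2 * N * (2 * P.card * (2 * Av.card * cl.card)) :=
        Nat.mul_le_mul_left _ (Nat.mul_le_mul_left _ (Nat.mul_le_mul_right _ hv))
    _ = 8 * N * P.card * (Av.card * cl.card) := by ring
    _ ≤ 8 * N * P.card * (4 * (A'.card * B'.card)) := Nat.mul_le_mul_left _ hc
    _ = 32 * N * P.card * (A'.card * B'.card) := by ring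
    _ ≤ 32 * N * 2 ^ (2 * (k * d) * (s + t) + 2) * (A'.card * B'.card) :=
        Nat.mul_le_mul_right _ (Nat.mul_le_mul_left _ hPc)

end approx

end Pool.Agent.R533.VC
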