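import Pool.Agent.H630R2.LR.M1

/-!
Ranks of Boolean matrices: spanning sets of rows, the number of different rows, monochromatic
rectangles.
-/

set_option autoImplicit false

namespace Pool.Agent.R533.VC

open Finset Pool.Agent.H630R2.LR

/-- A matrix of rank `r` has `r` rows which span all rows. -/
theorem exists_rows {α β : Type*} [Fintype α] [Fintype β] (M : Matrix α β ℝ) :
    ∃ T : Finset α, T.card ≤ M.rank ∧ ∀ a, M a ∈ Submodule.span ℝ (M '' (T : Set α)) := by
  classical
  obtain ⟨b, hb, hspan, hli⟩ := exists_linearIndependent ℝ (Set.range M)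
  have hfin : b.Finite := (Set.finite_range M).subset hb
  have : ∀ v : b, ∃ a, M a = v := fun v => hb v.2
  choose f hf using this
  have : Fintype b := hfin.fintype
  refine ⟨univ.image f, ?_, fun a => ?_⟩
  · refine card_image_le.trans ?_
    rw [Matrix.rank_eq_finrank_span_row]
    have h1 : Set.range M.row = Set.range M := rfl
    rw [h1, ← hspan, card_univ]
    have := finrank_span_eq_card hli
    rw [Subtype.range_coe] at this
    exact this.symm.le
  · have h1 : M '' ((univ.image f : Finset α) : Set α) = b := by
      ext v
      constructor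
      · rintro ⟨a, ha, rfl⟩
        rw [mem_coe, mem_image] at ha
        obtain ⟨y, _, rfl⟩ := ha
        rw [hf]
        exact y.2
      · intro hv
        exact ⟨f ⟨v, hv⟩, by simp, hf _⟩
    rw [h1, hspan]
    exact Submodule.subset_span ⟨a, rfl⟩

/-- If some coordinates of all the vectors of a set are zero, then so are those of its span. -/
theorem span_zero {α β : Type*} (M : α → β → ℝ) (T : Set α) (b : β) (h : ∀ a ∈ T, M a b = 0)
    (v : β → ℝ) (hv : v ∈ Submodule.span ℝ (M '' T)) : v b = 0 := by
  induction hv using Submodule.span_induction with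
  | mem x hx =>
    obtain ⟨a, ha, rfl⟩ := hx
    exact h a ha
  | zero => rfl
  | add x y _ _ hx hy => simp [hx, hy]
  | smul c x _ hx => simp [hx]

theorem span_eq {α β : Type*} (M : α → β → ℝ) (T : Set α) (b b' : β) (h : ∀ a ∈ T, M a b = M a b')
    (v : β → ℝ) (hv : v ∈ Submodule.span ℝ (M '' T)) : v b = v b' := by
  induction hv using Submodule.span_induction with
  | mem x hx =>
    obtain ⟨a, ha, rfl⟩ := hx
    exact h a ha
  | zero => rfl
  | add x y _ _ hx hy => simp [hx, hy]
  | smul c x _ hx => simp [hx]

theorem comm_swap {X Y : Type*} (F : X → Y → Bool) :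
    comm (fun y x => F x y) = (comm F).transpose := rfl

theorem comm_eq {X Y : Type*} (F : X → Y → Bool) (x x' : X) (y y' : Y)
    (h : comm F x y = comm F x' y') : F x y = F x' y' := by
  have h' : (if F x y then (1 : ℝ) else 0) = if F x' y' then (1 : ℝ) else 0 := h
  cases h1 : F x y <;> cases h2 : F x' y' <;> simp_all

/-- The columns are determined by their values at `rank` rows. -/
theorem exists_trace {X Y : Type*} [Fintype X] [Fintype Y] (F : X → Y → Bool) :
    ∃ T : Finset X, T.card ≤ (comm F).rank ∧
      ∀ y y', (∀ x ∈ T, F x y = F x y') → ∀ x, F x y = F x y' := by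
  obtain ⟨T, hT, hs⟩ := exists_rows (comm F)
  refine ⟨T, hT, fun y y' h x => ?_⟩
  refine comm_eq F x x y y' (span_eq (comm F) T y y' (fun a ha => ?_) _ (hs x))
  show (if F a y then (1 : ℝ) else 0) = if F a y' then (1 : ℝ) else 0
  rw [h a ha]

/-- The trivial protocol. -/
theorem proto_rank {X Y : Type*} [Fintype X] [Fintype Y] (F : X → Y → Bool) :
    Proto F ((comm F).rank + 1) := by
  classical
  obtain ⟨T, hT, h⟩ := exists_trace F
  have h1 : Proto F (1 + T.card) := by
    refine Proto.sendY F (fun y => fun x : T => F x y) T.card (by simp)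
      (fun q x _ => if h : ∃ y : Y, ∀ x : T, F x y = q x then F x h.choose else false) 1
      (fun q => ?_) (fun x y => ?_)
    · refine Proto.alice _
        (fun x => if h : ∃ y : Y, ∀ x : T, F x y = q x then F x h.choose else false)
        (fun v _ _ => v) 0 (fun v => Proto.const _ v fun _ _ => rfl) (fun x y => rfl)
    · have hex : ∃ y' : Y, ∀ x : T, F x y' = F x y := ⟨y, fun _ => rfl⟩
      show F x y = if h : ∃ y' : Y, ∀ x' : T, F x' y' = F x' y then F x h.choose else false
      rw [dif_pos hex]
      exact h y _ (fun a ha => (hex.choose_spec ⟨a, ha⟩).symm) x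
  exact h1.mono (by omega)

/-- representatives of the columns -/
theorem exists_reps {X Y : Type*} [Fintype X] [Fintype Y] (F : X → Y → Bool) :
    ∃ rep : Y → Y, (∀ x y, F x (rep y) = F x y) ∧ ∃ B : Finset Y, (∀ y, rep y ∈ B) ∧
      B.card ≤ 2 ^ (comm F).rank := by
  classical
  obtain ⟨T, hT, h⟩ := exists_trace F
  let tr : Y → (T → Bool) := fun y x => F x y
  have hex : ∀ y, ∃ y', tr y' = tr y := fun y => ⟨y, rfl⟩
  let pick : (T → Bool) → Option Y := fun q => if h : ∃ y, tr y = q then some h.choose else none
  let rep : Y → Y := fun y => (hex y).choose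
  have hrep : ∀ y y', tr y = tr y' → rep y = rep y' := by
    intro y y' hyy
    show (hex y).choose = (hex y').choose
    congr 1
    funext z
    rw [hyy]
  refine ⟨rep, fun x y => ?_, univ.image rep, fun y => by simp, ?_⟩
  · refine h _ _ (fun a ha => ?_) x
    have := (hex y).choose_spec
    exact congrFun this ⟨a, ha⟩
  · have h1 : (univ.image rep).card ≤ (univ.image tr).card := by
      apply card_le_card_of_injOn tr
      · intro z _
        simp
      · intro z hz z' hz' hzz
        simp only [coe_image, coe_univ, Set.image_univ, Set.mem_range] at hz hz'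
        obtain ⟨y, rfl⟩ := hz
        obtain ⟨y', rfl⟩ := hz'
        have e1 : tr (rep y) = tr y := (hex y).choose_spec
        have e2 : tr (rep y') = tr y' := (hex y').choose_spec
        exact hrep _ _ (by rw [← e1, ← e2, hzz])
    refine h1.trans ((card_le_univ _).trans ?_)
    rw [Fintype.card_fun, Fintype.card_bool, Fintype.card_coe]
    exact Nat.pow_le_pow_right (by norm_num) hT

end Pool.Agent.R533.VC
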