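import Pool.Agent.R533.VC.Rank

/-!
The ranks of the rows and of the columns of a monochromatic rectangle.
-/

set_option autoImplicit false

namespace Pool.Agent.R533.VC

open Finset Pool.Agent.H630R2.LR Module

theorem finrank_key {V W : Type*} [AddCommGroup V] [Module ℝ V] [FiniteDimensional ℝ V]
    [AddCommGroup W] [Module ℝ W] [FiniteDimensional ℝ W] (L : V →ₗ[ℝ] W) (S : Submodule ℝ V)
    (w : W) (h : ∀ s ∈ S, L s ∈ Submodule.span ℝ {w}) :
    finrank ℝ S + finrank ℝ (LinearMap.range L) ≤ finrank ℝ V + 1 := by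
  have h1 := LinearMap.finrank_range_add_finrank_ker (L.domRestrict S)
  have h2 := LinearMap.finrank_range_add_finrank_ker L
  have h3 : finrank ℝ (LinearMap.range (L.domRestrict S)) ≤ 1 := by
    have hle : LinearMap.range (L.domRestrict S) ≤ Submodule.span ℝ {w} := by
      rintro _ ⟨s, rfl⟩
      exact h s.1 s.2
    refine (Submodule.finrank_mono hle).trans ?_
    have := finrank_span_le_card (R := ℝ) ({w} : Set W)
    simpa using this
  have h4 : finrank ℝ (LinearMap.ker (L.domRestrict S)) ≤ finrank ℝ (LinearMap.ker L) := by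
    rw [← Submodule.finrank_map_subtype_eq S (LinearMap.ker (L.domRestrict S))]
    apply Submodule.finrank_mono
    rintro _ ⟨s, hs, rfl⟩
    simpa using hs
  omega

theorem rank_key {α β α' β' : Type*} [Fintype α] [Fintype β] [Fintype α'] [Fintype β']
    (M : Matrix α β ℝ) (f : α' → α) (g : β' → β) (v : ℝ) (h : ∀ a b, M (f a) (g b) = v) :
    (M.submatrix f id).rank + (M.submatrix id g).rank ≤ M.rank + 1 := by
  classical
  rw [Matrix.rank_eq_finrank_span_cols M, Matrix.rank_eq_finrank_span_cols (M.submatrix f id),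
    Matrix.rank_eq_finrank_span_cols (M.submatrix id g)]
  set V := Submodule.span ℝ (Set.range M.col) with hV
  set V' := Submodule.span ℝ (Set.range (M.submatrix id g).col) with hV'
  have hle : V' ≤ V := by
    apply Submodule.span_mono
    rintro _ ⟨b, rfl⟩
    exact ⟨g b, rfl⟩
  let L : V →ₗ[ℝ] (α' → ℝ) := (LinearMap.funLeft ℝ ℝ f).comp V.subtype
  have key := finrank_key L (V'.comap V.subtype) (fun _ => v) (by
    rintro ⟨s, hsV⟩ hs
    have hs' : s ∈ V' := hs
    show LinearMap.funLeft ℝ ℝ f s ∈ _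
    have : V'.map (LinearMap.funLeft ℝ ℝ f) ≤ Submodule.span ℝ {fun _ => v} := by
      rw [hV', Submodule.map_span_le]
      rintro _ ⟨b, rfl⟩
      have e : LinearMap.funLeft ℝ ℝ f ((M.submatrix id g).col b) = fun _ => v := by
        funext a
        exact h a b
      rw [e]
      exact Submodule.mem_span_singleton_self _
    exact this ⟨s, hs', rfl⟩)
  have h1 : finrank ℝ (V'.comap V.subtype) = finrank ℝ V' := by
    rw [← Submodule.finrank_map_subtype_eq V (V'.comap V.subtype), Submodule.map_comap_subtype,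
      inf_eq_right.mpr hle]
  have h2 : LinearMap.range L = Submodule.span ℝ (Set.range (M.submatrix f id).col) := by
    rw [LinearMap.range_comp, Submodule.range_subtype, hV, Submodule.map_span, ← Set.range_comp]
    rfl
  rw [h1, h2] at key
  omega

/-- the rank of `F` on the rectangle `A × B` -/
noncomputable def rk {X Y : Type*} (F : X → Y → Bool) (A : Finset X) (B : Finset Y) : ℕ :=
  (comm (fun (x : A) (y : B) => F x y)).rank

theorem rk_mono {X Y : Type*} (F : X → Y → Bool) {A A' : Finset X} {B B' : Finset Y}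
    (hA : A' ⊆ A) (hB : B' ⊆ B) : rk F A' B' ≤ rk F A B :=
  Matrix.rank_submatrix_le (comm (fun (x : A) (y : B) => F x y))
    (fun x : A' => (⟨x.1, hA x.2⟩ : A)) (fun y : B' => (⟨y.1, hB y.2⟩ : B))

theorem rk_le {X Y : Type*} [Fintype X] [Fintype Y] (F : X → Y → Bool) (A : Finset X)
    (B : Finset Y) : rk F A B ≤ (comm F).rank :=
  Matrix.rank_submatrix_le (comm F) (fun x : A => x.1) (fun y : B => y.1)

theorem rk_split {X Y : Type*} (F : X → Y → Bool) {A A' : Finset X} {B B' : Finset Y}
    (hA : A' ⊆ A) (hB : B' ⊆ B) (v : Bool) (h : ∀ x ∈ A', ∀ y ∈ B', F x y = v) :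
    rk F A' B + rk F A B' ≤ rk F A B + 1 := by
  refine rank_key (comm (fun (x : A) (y : B) => F x y))
    (fun x : A' => (⟨x.1, hA x.2⟩ : A)) (fun y : B' => (⟨y.1, hB y.2⟩ : B))
    (if v then 1 else 0) (fun a b => ?_)
  show (if F a.1 b.1 then (1 : ℝ) else 0) = _
  rw [h a.1 a.2 b.1 b.2]

end Pool.Agent.R533.VC
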